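import Pool.Agent.CGU.Lev

/-!
# Number fields: places, completions, the absolute Galois group, and the dual group of a unitary
group
-/

noncomputable section

namespace Pool.Agent.CGUF

open NumberField IsDedekindDomain

/-- Prime numbers. -/
abbrev Pr := Nat.Primes

/-- The finite places of the number field `F`. -/
def PlF (F : Type) [Field F] [NumberField F] : Type := HeightOneSpectrum (𝓞 F)

variable {F : Type} [Field F] [NumberField F]

/-- The prime ideal of a finite place. -/
def PlF.ideal (v : PlF F) : Ideal (𝓞 F) := HeightOneSpectrum.asIdeal v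

/-- The finite place `v` lies above the rational prime `ℓ`. -/
def PlF.Above (ℓ : Pr) (v : PlF F) : Prop := ((ℓ : ℕ) : 𝓞 F) ∈ v.ideal

/-- The norm of the finite place `v`, the number of elements of its residue field. -/
def PlF.norm (v : PlF F) : ℕ := Ideal.absNorm v.ideal

/-- The place `w` of the extension `K` of `F` lies above the place `v` of `F`. -/
def LiesOver {K : Type} [Field K] [NumberField K] [Algebra F K] (v : PlF F) (w : PlF K) : Prop :=
  ∀ a : 𝓞 F, a ∈ v.ideal ↔ algebraMap (𝓞 F) (𝓞 K) a ∈ w.ideal

/-- The place `v` of `F` splits in the quadratic extension `K`: there are two different places of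
`K` above it. -/
def Splits (K : Type) [Field K] [NumberField K] [Algebra F K] (v : PlF F) : Prop :=
  ∃ w w' : PlF K, w ≠ w' ∧ LiesOver v w ∧ LiesOver v w'

/-- The completion of `F` at the finite place `v`. -/
def Comp (v : PlF F) : Type := HeightOneSpectrum.adicCompletion F v

instance (v : PlF F) : Field (Comp v) :=
  (inferInstance : Field (HeightOneSpectrum.adicCompletion F v))

/-- The usual topology of the completion. -/
instance (v : PlF F) : TopologicalSpace (Comp v) :=
  (inferInstance : TopologicalSpace (HeightOneSpectrum.adicCompletion F v))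

/-- The ring of integers of the completion of `F` at `v`. -/
def CompInt (v : PlF F) : Type := HeightOneSpectrum.adicCompletionIntegers F v

instance (v : PlF F) : CommRing (CompInt v) :=
  (inferInstance : CommRing (HeightOneSpectrum.adicCompletionIntegers F v))

/-- The inclusion of the ring of integers in the completion. -/
def CompInt.incl (v : PlF F) : CompInt v →+* Comp v :=
  (HeightOneSpectrum.adicCompletionIntegers F v).subtype

/-- The embedding of `F` in its completion at `v`. -/
def Comp.emb (v : PlF F) : F →+* Comp v := algebraMap F (HeightOneSpectrum.adicCompletion F v)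

/-- The embedding of the ring of integers of `F` in that of its completion at `v`. -/
def CompInt.emb (v : PlF F) : 𝓞 F →+* CompInt v :=
  algebraMap (𝓞 F) (HeightOneSpectrum.adicCompletionIntegers F v)

/-- The element `x` of the completion is in the maximal ideal of its ring of integers. -/
def InMax {v : PlF F} (x : Comp v) : Prop :=
  Valued.v (R := HeightOneSpectrum.adicCompletion F v) x < 1

/-- The element `π` of `F` is a uniformiser at `v`. -/
def IsUnif (v : PlF F) (π : F) : Prop :=
  HeightOneSpectrum.valuation F v π = WithZero.exp (-1 : ℤ)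

theorem exists_unif (v : PlF F) : ∃ π : F, IsUnif v π :=
  HeightOneSpectrum.valuation_exists_uniformizer F v

/-- A uniformiser of the completion at `v`, an element of `F`. -/
def unifF (v : PlF F) : F := (exists_unif v).choose

/-- A uniformiser of the completion at `v`. -/
def unif (v : PlF F) : Comp v := Comp.emb v (unifF v)

theorem unif_ne (v : PlF F) : unif v ≠ 0 :=
  (map_ne_zero (algebraMap F (CG2.Fv v))).2 (CG2.pi_ne v)

/-- An algebraic closure of `F`. -/
def Fbar (F : Type) [Field F] : Type := AlgebraicClosure F

instance (F : Type) [Field F] : Field (Fbar F) := (inferInstance : Field (AlgebraicClosure F))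

instance (F : Type) [Field F] : Algebra F (Fbar F) :=
  (inferInstance : Algebra F (AlgebraicClosure F))

/-- The absolute Galois group of `F`. -/
def GalF (F : Type) [Field F] : Type := Fbar F ≃ₐ[F] Fbar F

instance (F : Type) [Field F] : Group (GalF F) := (inferInstance : Group (Fbar F ≃ₐ[F] Fbar F))

/-- The Krull topology. -/
instance (F : Type) [Field F] : TopologicalSpace (GalF F) :=
  (inferInstance : TopologicalSpace (Fbar F ≃ₐ[F] Fbar F))

/-- The image of `x` under `σ`. -/
def GalF.app (σ : GalF F) (x : Fbar F) : Fbar F :=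
  Equiv.toFun (AlgEquiv.toEquiv (R := F) (A := Fbar F) (B := Fbar F) σ) x

/-- The ring of algebraic integers in `Fbar`. -/
def Zbar (F : Type) [Field F] : Type := integralClosure ℤ (Fbar F)

instance (F : Type) [Field F] : CommRing (Zbar F) :=
  (inferInstance : CommRing (integralClosure ℤ (Fbar F)))

/-- The inclusion of `Zbar` in `Fbar`. -/
def Zbar.val (x : Zbar F) : Fbar F := x.1

/-- The prime ideal `Q` of the ring of algebraic integers lies over the place `v`. -/
def Over (v : PlF F) (Q : Ideal (Zbar F)) : Prop :=
  Q.IsPrime ∧ ∀ a ∈ v.ideal, ∀ x : Zbar F, x.val = algebraMap F (Fbar F) (a : F) → x ∈ Q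

/-- `σ` acts trivially on the residue ring `Zbar / Q`. -/
def IsInertia (Q : Ideal (Zbar F)) (σ : GalF F) : Prop :=
  ∀ x y : Zbar F, y.val = σ.app x.val → y - x ∈ Q

/-- `σ` acts on the residue ring `Zbar / Q` by `x ↦ x ^ N v`: it is a Frobenius element at `Q`,
where `Q` lies over `v`. -/
def IsFrob (v : PlF F) (Q : Ideal (Zbar F)) (σ : GalF F) : Prop :=
  ∀ x y : Zbar F, y.val = σ.app x.val → y - x ^ v.norm ∈ Q

variable {n : ℕ} {k : Type} [Field k]

/-- The antidiagonal matrix with the entries `1, -1, 1, …`. -/
def J (n : ℕ) (k : Type) [Field k] : Matrix (Fin n) (Fin n) k :=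
  Matrix.of fun i j => if (i : ℕ) + j + 1 = n then (-1) ^ (i : ℕ) else 0

/-- The action of `s` in `{1, -1}` on the element `b` of `GL_n(k)`: `b` if `s = 1`, and
`J (b⁻¹)ᵀ J⁻¹` if `s = -1` (note that `J⁻¹ = Jᵀ`). -/
def twist (s : ℤˣ) (b : Matrix.GeneralLinearGroup (Fin n) k) : Matrix (Fin n) (Fin n) k :=
  if s = 1 then b.val else J n k * b.inv.transpose * (J n k).transpose

/-- The homomorphisms from the absolute Galois group of `F` to the Langlands dual group of a
unitary group in `n` variables: the semidirect product of `GL_n(k)` and `{1, -1}` with the action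
above, that is, the group of the pairs `(a, s)` with the product
`(a, s) (b, t) = (a · twist s b, s t)`. -/
structure DRep (F : Type) [Field F] (n : ℕ) (k : Type) [Field k] where
  /-- the component in `GL_n(k)` -/
  mat : GalF F → Matrix.GeneralLinearGroup (Fin n) k
  /-- the component in `{1, -1}` -/
  sign : GalF F → ℤˣ
  mat_mul : ∀ σ τ, (mat (σ * τ)).val = (mat σ).val * twist (sign σ) (mat τ)
  sign_mul : ∀ σ τ, sign (σ * τ) = sign σ * sign τ

/-- `σ` is in the kernel of `ρ`. -/
def DRep.Ker (ρ : DRep F n k) (σ : GalF F) : Prop := (ρ.mat σ).val = 1 ∧ ρ.sign σ = 1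

/-- The space of vectors. -/
def Vec (n : ℕ) (k : Type) : Type := Fin n → k

instance : AddCommGroup (Vec n k) := (inferInstance : AddCommGroup (Fin n → k))

instance : Module k (Vec n k) := (inferInstance : Module k (Fin n → k))

/-- The vector `y` is orthogonal to the subspace `U` with respect to the form `∑ x_i y_i`. -/
def Perp (U : Submodule k (Vec n k)) (y : Vec n k) : Prop := ∀ x ∈ U, ∑ i, x i * y i = 0

/-- The element `(a, s)` of the dual group maps the pair `U ≤ U'` of subspaces to itself: if
`s = 1` then `a U = U` and `a U' = U'`, if `s = -1` then `a J U^⊥ = U'` and `a J U'^⊥ = U`. Every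
proper parabolic subgroup of the dual group which maps onto `{1, -1}` is contained in the
stabiliser of such a pair with `U ≠ 0`. -/
def Stab (U U' : Submodule k (Vec n k)) (a : Matrix (Fin n) (Fin n) k) (s : ℤˣ) : Prop :=
  if s = 1 then ∀ y : Vec n k, (y ∈ U ↔ a.mulVec y ∈ U) ∧ (y ∈ U' ↔ a.mulVec y ∈ U')
  else ∀ y : Vec n k,
    (Perp U y ↔ (a * J n k).mulVec y ∈ U') ∧ (Perp U' y ↔ (a * J n k).mulVec y ∈ U)

/-- `ρ` does not factor through a proper parabolic subgroup of the dual group, after any finite
extension of the field `k`. -/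
def NonEisenstein (ρ : DRep F n k) : Prop :=
  ∀ (k' : Type) [Field k'] (f : k →+* k'), f.Finite →
    ¬ ∃ U U' : Submodule k' (Vec n k'), U ≠ ⊥ ∧ U ≤ U' ∧
      ∀ σ : GalF F, Stab U U' ((ρ.mat σ).val.map f) (ρ.sign σ)

/-- The polynomial `X^n - w T₁ X^(n-1) + w² N T₂ X^(n-2) - … + (-1)^n w^n N^(n(n-1)/2) T_n`; here
`T_(j+1) = lam j`. -/
def pol (lam : Fin n → k) (w N : k) : Polynomial k :=
  Polynomial.X ^ n + ∑ j : Fin n,
    Polynomial.C ((-w) ^ ((j : ℕ) + 1) * N ^ ((j : ℕ) * ((j : ℕ) + 1) / 2) * lam j) *
      Polynomial.X ^ (n - ((j : ℕ) + 1))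

/-- The eigenvalues `T_(n-1) T_n⁻¹, …, T₁ T_n⁻¹, T_n⁻¹` of the dual Hecke operators; here
`T_(j+1) = lam (some j)` and `T_n⁻¹ = lam none`. -/
def dual (lam : Option (Fin n) → k) (j : Fin n) : k :=
  (if h : (j : ℕ) + 1 < n then lam (some (Fin.rev ⟨j + 1, h⟩)) else 1) * lam none

/-- The characteristic polynomial of `ρ(σ)` is `pol` of the eigenvalues `lam`, with the twist `w`,
at the place `v`. -/
def HasPol (ρ : DRep F n k) (σ : GalF F) (lam : Fin n → k) (w : k) (v : PlF F) : Prop :=
  (ρ.mat σ).val.charpoly = pol lam w ((v.norm : ℕ) : k)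

/-- The index set of a basis of an algebra of dimension `2 n²`. -/
def Ix (n : ℕ) : Type := Fin 2 × Fin n × Fin n

instance (n : ℕ) : Fintype (Ix n) := (inferInstance : Fintype (Fin 2 × Fin n × Fin n))

variable {R : Type} [CommRing R]

/-- The product on `R^(2 n²)` with the structure constants `c`: `e_i e_j = ∑ c_ijk e_k`. -/
def prod (c : Ix n → Ix n → Ix n → R) (x y : Ix n → R) : Ix n → R :=
  fun k => ∑ i, ∑ j, x i * y j * c i j k

/-- The linear map on `R^(2 n²)` with the matrix `t`: `e_i ↦ ∑ t_ij e_j`. -/
def lin (t : Ix n → Ix n → R) (x : Ix n → R) : Ix n → R := fun k => ∑ i, x i * t i k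

/-- The product with the structure constants `c` is associative, `u` is a unit element, and the
linear map with the matrix `t` is an involution: it is its own inverse and reverses products. -/
structure IsInvAlg (c : Ix n → Ix n → Ix n → R) (u : Ix n → R) (t : Ix n → Ix n → R) : Prop where
  assoc : ∀ x y z, prod c (prod c x y) z = prod c x (prod c y z)
  one_mul : ∀ x, prod c u x = x
  mul_one : ∀ x, prod c x u = x
  inv_inv : ∀ x, lin t (lin t x) = x
  inv_mul : ∀ x y, lin t (prod c x y) = prod c (lin t y) (lin t x)

/-- The ring laws for a product `mul` with the unit element `one` on an additive group. -/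
structure Laws (R : Type) [AddCommGroup R] (mul : R → R → R) (one : R) : Prop where
  assoc : ∀ x y z, mul (mul x y) z = mul x (mul y z)
  one_mul : ∀ x, mul one x = x
  mul_one : ∀ x, mul x one = x
  left : ∀ x y z, mul x (y + z) = mul x y + mul x z
  right : ∀ x y z, mul (x + y) z = mul x z + mul y z

/-- The ring with the product `mul` and the unit element `one`. -/
@[reducible] def mkRing {R : Type} [AddCommGroup R] {mul : R → R → R} {one : R}
    (h : Laws R mul one) : Ring R :=
  { (inferInstance : AddCommGroup R) with
    mul := mul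
    one := one
    mul_assoc := h.assoc
    one_mul := h.one_mul
    mul_one := h.mul_one
    left_distrib := h.left
    right_distrib := h.right
    zero_mul := fun x => by
      have h1 := h.right 0 0 x
      rw [add_zero] at h1
      exact left_eq_add.1 h1
    mul_zero := fun x => by
      have h1 := h.left x 0 0
      rw [add_zero] at h1
      exact left_eq_add.1 h1 }

end Pool.Agent.CGUF
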