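import Pool.Agent.CGUF.Old

/-!
# The cohomology of the locally symmetric spaces of unitary groups over a number field

The definitions repeat those of `Pool.Agent.CGU`, with named and bundled types, so that they can be
displayed in short form.
-/

noncomputable section

namespace Pool.Agent.CGUF

open Matrix NumberField IsDedekindDomain

/-- An algebra `B` of dimension `2 n²` over a number field `F` with an `F`-linear involution,
given by structure constants in the ring of integers of `F` with respect to a basis; and a number
field `K` containing `F`. Every such algebra is of this form: take a basis of eigenvectors of the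
involution, one of which is `1`, and multiply the other ones by a suitable nonzero integer. -/
structure UData where
  /-- the number field -/
  F : Type
  [field : Field F]
  [numberField : NumberField F]
  /-- the extension -/
  K : Type
  [fieldK : Field K]
  [numberFieldK : NumberField K]
  [algebra : Algebra F K]
  /-- the degree -/
  n : ℕ
  /-- the products of the elements of the basis -/
  c : Ix n → Ix n → Ix n → 𝓞 F
  /-- the coordinates of the unit element -/
  u : Ix n → 𝓞 F
  /-- the images of the elements of the basis under the involution -/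
  t : Ix n → Ix n → 𝓞 F
  laws : IsInvAlg c u t

attribute [instance] UData.field UData.numberField UData.fieldK UData.numberFieldK UData.algebra

/-- The same data in the notation of `Pool.Agent.CGU`. -/
def UData.old (A : UData) : CGU.UD A.F := ⟨A.n, oldSC A.laws⟩

/-- The ring of integers of `F`. -/
def UData.OF (A : UData) : Type := 𝓞 A.F

variable {A : UData}

instance : CommRing A.OF := (inferInstance : CommRing (𝓞 A.F))

/-- A commutative ring `R` with a homomorphism from the ring of integers of `F` to `R`. -/
structure Base (A : UData) where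
  /-- the ring -/
  R : Type
  [ring : CommRing R]
  /-- the homomorphism -/
  f : A.OF →+* R

attribute [instance] Base.ring

variable {P : Base A}

/-- The value of the homomorphism. -/
def Base.val (P : Base A) (a : A.OF) : P.R := P.f a

/-- The algebra over `R` with the basis `e_i` : the module `R^(2 n²)` of the coordinates. -/
def Alg (P : Base A) : Type := Ix A.n → P.R

instance : AddCommGroup (Alg P) := (inferInstance : AddCommGroup (Ix A.n → P.R))

/-- The product. -/
def Alg.mul (x y : Alg P) : Alg P := prod (fun i j k => P.val (A.c i j k)) x y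

/-- The unit element. -/
def Alg.one (P : Base A) : Alg P := fun i => P.val (A.u i)

/-- The image of `x` under the involution. -/
def Alg.inv (x : Alg P) : Alg P := lin (fun i j => P.val (A.t i j)) x

/-- The trace of the multiplication by `x`. -/
def Alg.tr (x : Alg P) : P.R := ∑ i, ∑ j, x i * P.val (A.c i j j)

/-- The structure constants in the notation of `Pool.Agent.CGU`. -/
def Base.old (P : Base A) : CGU.SCI (Fin 2 × Fin A.n × Fin A.n) P.R := A.old.s.map P.f

theorem Alg.laws : Laws (Alg P) Alg.mul (Alg.one P) :=
  ⟨mul_assoc (G := P.old.toSC.Alg), one_mul (M := P.old.toSC.Alg), mul_one (M := P.old.toSC.Alg),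
    mul_add (R := P.old.toSC.Alg), add_mul (R := P.old.toSC.Alg)⟩

instance : Ring (Alg P) := mkRing Alg.laws

instance : Module P.R (Alg P) := (inferInstance : Module P.R (Ix A.n → P.R))

/-- The product of a scalar and an element of the algebra. -/
def Alg.sm (r : P.R) (x : Alg P) : Alg P := r • x

theorem Alg.sm_mul (r : P.R) (x y : Alg P) : x.sm r * y = (x * y).sm r :=
  CGN.SC.Alg.smul_mul' (s := P.old.toSC) r x y

theorem Alg.mul_sm (r : P.R) (x y : Alg P) : x * y.sm r = (x * y).sm r :=
  CGN.SC.Alg.mul_smul' (s := P.old.toSC) r x y

instance : Algebra P.R (Alg P) := Algebra.ofModule Alg.sm_mul Alg.mul_sm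

/-- The group of units of the algebra over `R`. -/
def UnitG (P : Base A) : Type := (Alg P)ˣ

instance : Group (UnitG P) := (inferInstance : Group (Alg P)ˣ)

/-- The underlying element of the algebra. -/
def UnitG.val (x : UnitG P) : Alg P := Units.val x

/-- The inverse. -/
def UnitG.inv (x : UnitG P) : Alg P := Units.inv x

/-- The unit given by two inverse elements. -/
def UnitG.mk (x y : Alg P) (h : x * y = 1) (h' : y * x = 1) : UnitG P := ⟨x, y, h, h'⟩

/-- The element `x` is unitary: `x* x = 1`. -/
def IsUnitary (x : UnitG P) : Prop := x.val.inv * x.val = 1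

theorem isUnitary_mul {x y : UnitG P} (hx : IsUnitary x) (hy : IsUnitary y) :
    IsUnitary (x * y) := P.old.U.mul_mem' hx hy

theorem isUnitary_one : IsUnitary (1 : UnitG P) := P.old.U.one_mem'

theorem isUnitary_inv {x : UnitG P} (hx : IsUnitary x) : IsUnitary x⁻¹ := P.old.U.inv_mem' hx

/-- The subgroup of the unitary elements. -/
def USub (P : Base A) : Subgroup (UnitG P) where
  carrier := {x | IsUnitary x}
  mul_mem' := isUnitary_mul
  one_mem' := isUnitary_one
  inv_mem' := isUnitary_inv

/-- The unitary group over `R`. -/
def UGrp (P : Base A) : Type := USub P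

instance : Group (UGrp P) := (inferInstance : Group (USub P))

/-- The underlying unit. -/
def UGrp.unit (x : UGrp P) : UnitG P := x.1

/-- The underlying element of the algebra. -/
def UGrp.val (x : UGrp P) : Alg P := x.unit.val

/-- The element of the unitary group given by a unitary unit. -/
def UGrp.mk (x : UnitG P) (h : IsUnitary x) : UGrp P := ⟨x, h⟩

/-- The finite places of the number field `F`. -/
def Pl (A : UData) : Type := PlF A.F

/-- The finite place `v` lies above the rational prime `ℓ`. -/
def Above (ℓ : Pr) (v : Pl A) : Prop := PlF.Above ℓ v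

/-- The completion of `F` at the finite place `v`. -/
def Fv (v : Pl A) : Type := Comp v

instance (v : Pl A) : Field (Fv v) := (inferInstance : Field (Comp v))

instance (v : Pl A) : TopologicalSpace (Fv v) := (inferInstance : TopologicalSpace (Comp v))

/-- The ring of integers of the completion of `F` at `v`. -/
def Ov (v : Pl A) : Type := CompInt v

instance (v : Pl A) : CommRing (Ov v) := (inferInstance : CommRing (CompInt v))

/-- The inclusion of the ring of integers in the completion. -/
def incl (v : Pl A) : Ov v →+* Fv v := CompInt.incl v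

/-- The embedding of `F` in its completion at `v`. -/
def emb (v : Pl A) : A.F →+* Fv v := Comp.emb v

/-- The inclusion of the ring of integers of `F` in `F`. -/
def UData.inclF (A : UData) : A.OF →+* A.F := algebraMap (𝓞 A.F) A.F

/-- The field `F` with the inclusion of the ring of integers. -/
def baseF (A : UData) : Base A := ⟨A.F, A.inclF⟩

/-- The field `F_v` with the embedding of the ring of integers of `F`. -/
def baseV (v : Pl A) : Base A := ⟨Fv v, (emb v).comp A.inclF⟩

/-- The ring `O_v` with the embedding of the ring of integers of `F`. -/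
def baseO (v : Pl A) : Base A := ⟨Ov v, CompInt.emb v⟩

/-- The algebra `B` over `F`. -/
abbrev UData.B (A : UData) : Type := Alg (baseF A)

/-- The embedding of `B` in `B_v = B ⊗ F_v`. -/
def toV (v : Pl A) (x : Alg (baseF A)) : Alg (baseV v) := fun i => emb v (x i)

/-- The inclusion of the order spanned by the basis over `O_v` in `B_v`. -/
def toO (v : Pl A) (x : Alg (baseO v)) : Alg (baseV v) := fun i => incl v (x i)

/-- The unitary group `G(F)`. -/
def GF (A : UData) : Type := UGrp (baseF A)

instance : Group (GF A) := (inferInstance : Group (UGrp (baseF A)))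

/-- The underlying unit of `B`. -/
def GF.unit (γ : GF A) : UnitG (baseF A) := UGrp.unit γ

/-- The unitary group `G(F_v)`. -/
def GV (v : Pl A) : Type := UGrp (baseV v)

instance (v : Pl A) : Group (GV v) := (inferInstance : Group (UGrp (baseV v)))

/-- The underlying unit of `B_v`. -/
def GV.unit {v : Pl A} (g : GV v) : UnitG (baseV v) := UGrp.unit g

/-- The topology of `F_v^(2 n²)`. -/
instance (v : Pl A) : TopologicalSpace (Alg (baseV v)) :=
  (inferInstance : TopologicalSpace (Ix A.n → Fv v))

/-- The topology of `B_vˣ`: `B_v` has the product topology of `F_v^(2 n²)`, and the map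
`x ↦ (x, x⁻¹)` from `B_vˣ` to `B_v × B_v` is an embedding. -/
instance (v : Pl A) : TopologicalSpace (UnitG (baseV v)) :=
  (inferInstance : TopologicalSpace (Alg (baseV v))ˣ)

/-- The topology of a subspace of `B_vˣ`. -/
instance (v : Pl A) : TopologicalSpace (GV v) :=
  (inferInstance : TopologicalSpace (USub (baseV v)))

theorem toV_inv (v : Pl A) (x : UnitG (baseF A)) : toV v x.val * toV v x.inv = 1 :=
  (Units.map (CGU.bloc A.old v : CGU.BF A.old →* CGU.BV A.old v) x).val_inv

theorem toV_inv' (v : Pl A) (x : UnitG (baseF A)) : toV v x.inv * toV v x.val = 1 :=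
  (Units.map (CGU.bloc A.old v : CGU.BF A.old →* CGU.BV A.old v) x).inv_val

/-- The image in `B_vˣ` of a unit of `B`. -/
def unitV (v : Pl A) (x : UnitG (baseF A)) : UnitG (baseV v) :=
  UnitG.mk (toV v x.val) (toV v x.inv) (toV_inv v x) (toV_inv' v x)

theorem isUnitary_loc (v : Pl A) (γ : GF A) : IsUnitary (unitV v γ.unit) :=
  ((CGU.sysU A.old).loc v γ).2

/-- The embedding of `G(F)` in `G(F_v)`. -/
def loc (v : Pl A) (γ : GF A) : GV v := UGrp.mk (unitV v γ.unit) (isUnitary_loc v γ)

theorem toO_inv (v : Pl A) (x : UnitG (baseO v)) : toO v x.val * toO v x.inv = 1 :=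
  (Units.map (CGU.bint A.old v : CGU.BO A.old v →* CGU.BV A.old v) x).val_inv

theorem toO_inv' (v : Pl A) (x : UnitG (baseO v)) : toO v x.inv * toO v x.val = 1 :=
  (Units.map (CGU.bint A.old v : CGU.BO A.old v →* CGU.BV A.old v) x).inv_val

/-- The image in `B_vˣ` of a unit of the order. -/
def unitO (v : Pl A) (x : UnitG (baseO v)) : UnitG (baseV v) :=
  UnitG.mk (toO v x.val) (toO v x.inv) (toO_inv v x) (toO_inv' v x)

/-- The element `g` of `G(F_v)` is a unit of the order. -/
def IsUnitO {v : Pl A} (g : GV v) : Prop := ∃ x : UnitG (baseO v), unitO v x = g.unit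

/-- The families of elements of the groups `G(F_v)`. -/
def Fam (A : UData) : Type := ∀ v : Pl A, GV v

instance : Group (Fam A) := (inferInstance : Group (∀ v : Pl A, GV v))

/-- Almost all members of the family `g` are units of the orders. -/
def AlmostInt (g : Fam A) : Prop := {v : Pl A | ¬ IsUnitO (g v)}.Finite

theorem almostInt_mul {a b : Fam A} (ha : AlmostInt a) (hb : AlmostInt b) : AlmostInt (a * b) :=
  (CGU.sysU A.old).A.mul_mem' ha hb

theorem almostInt_one : AlmostInt (1 : Fam A) := (CGU.sysU A.old).A.one_mem'

theorem almostInt_inv {a : Fam A} (ha : AlmostInt a) : AlmostInt a⁻¹ :=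
  (CGU.sysU A.old).A.inv_mem' ha

/-- The subgroup of these families. -/
def GA (A : UData) : Subgroup (Fam A) where
  carrier := {g | AlmostInt g}
  mul_mem' := almostInt_mul
  one_mem' := almostInt_one
  inv_mem' := almostInt_inv

/-- The group `G(𝔸_f)`, `𝔸_f` the ring of finite adeles of `F`: the restricted product of the
groups `G(F_v)` with respect to the unit groups of the orders. -/
def AG (A : UData) : Type := GA A

instance : Group (AG A) := (inferInstance : Group (GA A))

/-- The element of `G(𝔸_f)` given by a family. -/
def AG.mk (g : Fam A) (h : AlmostInt g) : AG A := ⟨g, h⟩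

/-- The component at `v` of an element of `G(𝔸_f)`. -/
def AG.comp (g : AG A) (v : Pl A) : GV v := g.1 v

theorem almostInt_loc (γ : GF A) : AlmostInt (fun v => loc v γ) :=
  (CGQ.diag (𝒟 := CGU.sysU A.old) γ).2

/-- The image of `γ` under the diagonal embedding `G(F) → G(𝔸_f)`. -/
def diag (γ : GF A) : AG A := AG.mk (fun v => loc v γ) (almostInt_loc γ)

open Classical in
/-- The family with member `h` at `v` and `1` elsewhere. -/
def singleFam (v : Pl A) (h : GV v) : Fam A := Pi.mulSingle (M := GV) v h

theorem almostInt_single (v : Pl A) (h : GV v) : AlmostInt (singleFam v h) :=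
  (CGQ.single (𝒟 := CGU.sysU A.old) v h).2

/-- The element of `G(𝔸_f)` with component `h` at `v` and `1` elsewhere. -/
def single (v : Pl A) (h : GV v) : AG A := AG.mk (singleFam v h) (almostInt_single v h)

/-- The field `ℝ` with the embedding of the ring of integers of `F` given by an embedding of
`F`. -/
def baseR (f : A.F →+* ℝ) : Base A := ⟨ℝ, f.comp A.inclF⟩

/-- The embedding of `B` in `B ⊗ ℝ`. -/
def toR (f : A.F →+* ℝ) (x : A.B) : Alg (baseR f) := fun i => f (x i)

/-- The embedding `f` of `F` in `ℝ` extends to `K`. -/
def Ext (f : A.F →+* ℝ) : Prop := ∃ g : A.K →+* ℝ, g.comp (algebraMap A.F A.K) = f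

instance : Algebra A.F A.B := (inferInstance : Algebra (baseF A).R (Alg (baseF A)))

/-- The homomorphisms of algebras over `F` from `K` to `B`. -/
def Emb (A : UData) : Type := A.K →ₐ[A.F] A.B

/-- The value of such a homomorphism. -/
def Emb.app (κ : Emb A) (a : A.K) : A.B := (show A.K →ₐ[A.F] A.B from κ) a

/-- `K` is a quadratic extension of `F` and `B` is a central simple algebra over `K` (embedded in
`B` by `κ`), the involution is not trivial on `K`, anisotropic (`x* x = 0` only for `x = 0`), and
positive at the real places of `F` which do not split in `K`: there `(x, y) ↦ tr (x* y)` is positive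
definite on `B ⊗ ℝ`. -/
structure IsUnitaryData (κ : Emb A) : Prop where
  deg : Module.finrank A.F A.K = 2
  com : ∀ (a : A.K) (x : A.B), κ.app a * x = x * κ.app a
  cen : ∀ x : A.B, (∀ y : A.B, x * y = y * x) → ∃ a : A.K, κ.app a = x
  simple : IsSimpleRing A.B
  kind : ∃ a : A.K, (κ.app a).inv ≠ κ.app a
  ani : ∀ x : A.B, x.inv * x = 0 → x = 0
  pos : ∀ f : A.F →+* ℝ, ¬ Ext f → ∀ x : Alg (baseR f), x ≠ 0 → (0 : ℝ) < (x.inv * x).tr

/-- The group `GL_n(R)`. -/
def GLr (P : Base A) : Type := GL (Fin A.n) P.R

instance : Group (GLr P) := (inferInstance : Group (GL (Fin A.n) P.R))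

/-- The homomorphisms of algebras over `R` from the algebra with the basis `e_i` to `M_n(R)`. -/
def Hom (P : Base A) : Type := Alg P →ₐ[P.R] Matrix (Fin A.n) (Fin A.n) P.R

/-- The value of such a homomorphism. -/
def Hom.app (θ : Hom P) (x : Alg P) : Matrix (Fin A.n) (Fin A.n) P.R :=
  (show Alg P →ₐ[P.R] Matrix (Fin A.n) (Fin A.n) P.R from θ) x

/-- The determinant of the image of `x`. -/
def Hom.det (θ : Hom P) (x : Alg P) : P.R := (θ.app x).det

theorem Hom.map_inv (θ : Hom P) (x : UnitG P) : θ.app x.val * θ.app x.inv = 1 :=
  (Units.map ((show Alg P →ₐ[P.R] Matrix (Fin A.n) (Fin A.n) P.R from θ) :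
    Alg P →* Matrix (Fin A.n) (Fin A.n) P.R) x).val_inv

theorem Hom.map_inv' (θ : Hom P) (x : UnitG P) : θ.app x.inv * θ.app x.val = 1 :=
  (Units.map ((show Alg P →ₐ[P.R] Matrix (Fin A.n) (Fin A.n) P.R from θ) :
    Alg P →* Matrix (Fin A.n) (Fin A.n) P.R) x).inv_val

/-- The image of an element of the unitary group in `GL_n(R)`. -/
def Hom.grp (θ : Hom P) (x : UGrp P) : GLr P :=
  ⟨θ.app x.unit.val, θ.app x.unit.inv, θ.map_inv x.unit, θ.map_inv' x.unit⟩

/-- The real places of `F` for which there is a homomorphism from `B ⊗ ℝ` to `M_n(ℝ)`: these are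
the places which split in `K` and at which `G(ℝ) = GL_n(ℝ)`. -/
def SPl (A : UData) : Type := {w : InfinitePlace A.F // ∃ h : w.IsReal,
  Nonempty (Hom (A := A) (baseR (InfinitePlace.embedding_of_isReal h)))}

/-- The embedding of `F` in `ℝ` given by such a place. -/
def SPl.emb (w : SPl A) : A.F →+* ℝ := InfinitePlace.embedding_of_isReal w.2.choose

/-- A homomorphism from `B ⊗ ℝ` to `M_n(ℝ)`. -/
def SPl.hom (w : SPl A) : Hom (baseR w.emb) := w.2.choose_spec.some

/-- The determinant of `x` at such a place. -/
def SPl.det (w : SPl A) (x : A.B) : ℝ := w.hom.det (toR w.emb x)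

/-- The group `{1,-1}^(these places)`, the set of the connected components of `G(F ⊗ ℝ)`. -/
def Sg (A : UData) : Type := SPl A → ℤˣ

instance : Group (Sg A) := (inferInstance : Group (SPl A → ℤˣ))

/-- The action of `G(F)` on this set: the signs of the determinants. -/
def sgn (γ : GF A) : Sg A := fun w => if 0 < w.det γ.unit.val then 1 else -1

end Pool.Agent.CGUF
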