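import Pool.Agent.CGUF.Defs

/-!
# Levels, coefficients and the cohomology of the locally symmetric spaces
-/

noncomputable section

namespace Pool.Agent.CGUF

open Matrix NumberField IsDedekindDomain

variable {A : UData}

/-- The places above the rational prime `ℓ`. -/
def PlAbove (A : UData) (ℓ : Pr) : Type := {v : Pl A // Above ℓ v}

/-- The group `G(F ⊗ ℚ_ℓ)`, the product of the groups `G(F_v)` over the places `v` above the
rational prime `ℓ`. -/
def GQ (A : UData) (ℓ : Pr) : Type := ∀ v : PlAbove A ℓ, GV v.1

instance (ℓ : Pr) : Group (GQ A ℓ) := (inferInstance : Group (∀ v : PlAbove A ℓ, GV v.1))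

/-- The product topology. -/
instance (ℓ : Pr) : TopologicalSpace (GQ A ℓ) :=
  (inferInstance : TopologicalSpace (∀ v : PlAbove A ℓ, GV v.1))

/-- The subgroups of this group. -/
def Sub (A : UData) (ℓ : Pr) : Type := Subgroup (GQ A ℓ)

/-- The element `g` is in the subgroup `K`. -/
def Sub.Mem {ℓ : Pr} (K : Sub A ℓ) (g : GQ A ℓ) : Prop := g ∈ (show Subgroup (GQ A ℓ) from K)

/-- The subgroup `K` is compact and open. -/
def Sub.IsCO {ℓ : Pr} (K : Sub A ℓ) : Prop :=
  IsOpen {g : GQ A ℓ | K.Mem g} ∧ IsCompact {g : GQ A ℓ | K.Mem g}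

/-- The place `v` of `F` splits in `K`. -/
def SplitsK (v : Pl A) : Prop := Splits A.K v

/-- The finite place `v` lies above one of the rational primes in `S` or does not split in
`K`. -/
def Bad (S : Finset Pr) (v : Pl A) : Prop := (∃ ℓ ∈ S, Above ℓ v) ∨ ¬ SplitsK v

open Classical in
/-- The components at the places which split in `K` are replaced by `1`. -/
def cut {ℓ : Pr} (g : GQ A ℓ) : GQ A ℓ := fun v => if SplitsK v.1 then 1 else g v

/-- The group `GL_n(F_v)`. -/
def LG (v : Pl A) : Type := GLr (baseV v)

instance (v : Pl A) : Group (LG v) := (inferInstance : Group (GLr (baseV v)))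

/-- The subgroup `GL_n(O_v)` of `GL_n(F_v)`. -/
def GZ (v : Pl A) : Subgroup (LG v) := (GeneralLinearGroup.map (n := Fin A.n) (incl v)).range

/-- The element `g` of `GL_n(F_v)` is in `GL_n(O_v)`. -/
def IsUnitG {v : Pl A} (g : LG v) : Prop := g ∈ GZ v

/-- The homomorphisms of algebras from `B_v` to `M_n(F_v)` which map `G(F_v)` bijectively to
`GL_n(F_v)`. -/
structure Iso (v : Pl A) where
  /-- the homomorphism of algebras -/
  θ : Hom (baseV v)
  bij : Function.Bijective θ.grp

/-- The isomorphism `G(F_v) → GL_n(F_v)`. -/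
def Iso.app {v : Pl A} (φ : Iso v) (g : GV v) : LG v := φ.θ.grp g

/-- The inverse isomorphism. -/
def Iso.symm {v : Pl A} (φ : Iso v) (h : LG v) : GV v := Function.surjInv φ.bij.2 h

/-- A level: compact open subgroups `K_ℓ` of `G(F ⊗ ℚ_ℓ)` for all rational primes `ℓ`, for almost
all `ℓ` the product of the unit groups of the orders (so the product `K_f` of the `K_ℓ` is open),
which are hyperspecial at the places that split in `K`, for `ℓ` outside a finite set `S` of primes
which contains the given prime `p`: there are isomorphisms `φ_v` of the groups `G(F_v)` with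
`GL_n(F_v)`, for the places `v` which split in `K` and are not above `S`, such that `K_ℓ` is the
product of the preimages of the groups `GL_n(O_v)` for the places `v` above `ℓ` which split in `K`
and of a subgroup of the product of the `G(F_v)` over the other places, for `ℓ` outside `S`. -/
structure Level (A : UData) where
  /-- the prime `p` -/
  p : Pr
  /-- the set `S` -/
  S : Finset Pr
  mem : p ∈ S
  /-- the local groups -/
  K : ∀ ℓ : Pr, Sub A ℓ
  isCO : ∀ ℓ, (K ℓ).IsCO
  almost : {ℓ : Pr | ¬ ∀ g, (K ℓ).Mem g ↔ ∀ v, IsUnitO (g v)}.Finite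
  /-- the isomorphisms -/
  φ : ∀ v : Pl A, ¬ Bad S v → Iso v
  off : ∀ ℓ, ℓ ∉ S → ∀ g, (K ℓ).Mem g ↔
    (∀ (v : PlAbove A ℓ) (hv : ¬ Bad S v.1), IsUnitG ((φ v.1 hv).app (g v))) ∧ (K ℓ).Mem (cut g)

/-- The same level in the notation of `Pool.Agent.CGU`. -/
def Level.old (L : Level A) : CGU.LevelU A.old A.K L.p L.S :=
  ⟨L.K, fun ℓ => (L.isCO ℓ).1, fun ℓ => (L.isCO ℓ).2, L.almost,
    ⟨fun v => (L.φ v.1 v.2).θ, fun v => (L.φ v.1 v.2).bij⟩, L.off, L.mem⟩

/-- The component at the rational prime `ℓ` of an element of `G(𝔸_f)`. -/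
def AG.at (g : AG A) (ℓ : Pr) : GQ A ℓ := fun v => g.comp v.1

/-- The element `g` of `G(𝔸_f)` is in `K_f` : all its components are in the groups `K_ℓ`. -/
def Level.InK (L : Level A) (g : AG A) : Prop := ∀ ℓ, (L.K ℓ).Mem (g.at ℓ)

/-- The groups `G(F) ∩ g K_f g⁻¹` are torsion free, for all `g` in `G(𝔸_f)`.
This holds when `K_f` is neat. -/
def Level.TorsionFree (L : Level A) : Prop :=
  ∀ (g : AG A) (γ : GF A) (m : ℕ), 0 < m → L.InK (g⁻¹ * diag γ * g) → γ ^ m = 1 → γ = 1

/-- The group `K_f`. -/
def Level.Kf (L : Level A) : Type := {g : AG A // L.InK g}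

/-- The underlying element of `G(𝔸_f)`. -/
def Level.Kf.val {L : Level A} (k : L.Kf) : AG A := k.1

/-- The group `K_p`. -/
def Level.Kp (L : Level A) : Type := (show Subgroup (GQ A L.p) from L.K L.p)

instance (L : Level A) : Group L.Kp :=
  (inferInstance : Group (show Subgroup (GQ A L.p) from L.K L.p))

/-- The inclusion of `K_p` in `G(F ⊗ ℚ_p)`. -/
def Level.Kp.val {L : Level A} (k : L.Kp) : GQ A L.p := k.1

/-- The component at `p` of an element of `K_f`. -/
def Level.Kf.atp {L : Level A} (k : L.Kf) : L.Kp := ⟨k.val.at L.p, k.2 L.p⟩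

/-- The coefficients: a discrete valuation ring `O` whose residue field has the characteristic
`p` (in particular, the ring of integers of a finite extension of `ℚ_p`), and a finitely generated
`O`-module `W` with an `O`-linear action of `K_p`. -/
structure Coef (L : Level A) where
  /-- the ring -/
  O : Type
  [commRing : CommRing O]
  [isDomain : IsDomain O]
  [dvr : IsDiscreteValuationRing O]
  char : ((L.p : ℕ) : O) ∈ IsLocalRing.maximalIdeal O
  /-- the module -/
  W : Type
  [addCommGroup : AddCommGroup W]
  [module : Module O W]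
  [finite : Module.Finite O W]
  /-- the action of `K_p` -/
  act : L.Kp → W → W
  act_one : ∀ w, act 1 w = w
  act_mul : ∀ g h w, act (g * h) w = act g (act h w)
  act_add : ∀ g w w', act g (w + w') = act g w + act g w'
  act_smul : ∀ g (c : O) w, act g (c • w) = c • act g w

attribute [instance] Coef.commRing Coef.isDomain Coef.dvr Coef.addCommGroup Coef.module
  Coef.finite

variable {L : Level A}

/-- The action of `K_p` as a representation. -/
def Coef.σ (V : Coef L) : Representation V.O L.Kp V.W where
  toFun g := ⟨⟨V.act g, V.act_add g⟩, V.act_smul g⟩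
  map_one' := LinearMap.ext V.act_one
  map_mul' g h := LinearMap.ext (V.act_mul g h)

/-- The action of `K_p` on `W` is continuous for the topology of `W` given by the submodules `a W`,
`a ≠ 0` in `O` (the `𝔪`-adic topology, `𝔪` the maximal ideal of `O`). -/
def Coef.IsCont (V : Coef L) : Prop :=
  ∀ a : V.O, a ≠ 0 → ∃ U : Set (GQ A L.p), IsOpen U ∧ 1 ∈ U ∧ ∀ k : L.Kp, k.val ∈ U →
    ∀ w : V.W, ∃ w', V.act k w = w + a • w'

/-- The points: the product of the set of the connected components of `G(F ⊗ ℝ)` and of
`G(𝔸_f)`. -/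
def Pt (A : UData) : Type := Sg A × AG A

/-- The translate of a point by an element of `G(𝔸_f)` from the right. -/
def Pt.mul (y : Pt A) (h : AG A) : Pt A := (y.1, y.2 * h)

/-- The translate of a point by an element of `G(F)` from the left. -/
def Pt.act (γ : GF A) (y : Pt A) : Pt A := (sgn γ * y.1, diag γ * y.2)

/-- The functions on this set with values in `W`. -/
def Fn (V : Coef L) : Type := Pt A → V.W

instance (V : Coef L) : AddCommGroup (Fn V) := (inferInstance : AddCommGroup (Pt A → V.W))

instance (V : Coef L) : Module V.O (Fn V) := (inferInstance : Module V.O (Pt A → V.W))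

/-- The condition `f (x, g k) = k_p⁻¹ f (x, g)` for all `k` in `K_f`. -/
def IsForm {V : Coef L} (f : Fn V) : Prop :=
  ∀ (y : Pt A) (k : L.Kf), f (y.mul k.val) = V.act (k.atp)⁻¹ (f y)

theorem isForm_add {V : Coef L} {a b : Fn V} (ha : IsForm a) (hb : IsForm b) : IsForm (a + b) := by
  intro y k
  exact (congrArg₂ (· + ·) (ha y k) (hb y k)).trans (V.act_add _ _ _).symm

theorem isForm_zero {V : Coef L} : IsForm (0 : Fn V) := by
  intro y k
  have h := V.act_smul (k.atp)⁻¹ 0 0
  rw [zero_smul, zero_smul] at h
  exact h.symm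

theorem isForm_smul {V : Coef L} (c : V.O) {a : Fn V} (ha : IsForm a) : IsForm (c • a) := by
  intro y k
  exact (congrArg (c • ·) (ha y k)).trans (V.act_smul _ _ _).symm

/-- The submodule of the functions with this property. -/
def FormsSub (V : Coef L) : Submodule V.O (Fn V) where
  carrier := {f | IsForm f}
  add_mem' := isForm_add
  zero_mem' := isForm_zero
  smul_mem' := isForm_smul

/-- The module of all functions `f` on `{1,-1}^s × G(𝔸_f)` with values in
`W` such that `f (x, g k) = k_p⁻¹ f (x, g)` for all `k` in `K_f`. -/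
def Forms (V : Coef L) : Type := FormsSub V

instance (V : Coef L) : AddCommGroup (Forms V) := (inferInstance : AddCommGroup (FormsSub V))

instance (V : Coef L) : Module V.O (Forms V) := (inferInstance : Module V.O (FormsSub V))

/-- The element of `Forms` given by a function. -/
def Forms.mk {V : Coef L} (f : Fn V) (h : IsForm f) : Forms V := ⟨f, h⟩

/-- The function underlying an element of `Forms`. -/
def Forms.fn {V : Coef L} (f : Forms V) : Fn V := f.1

/-- The translate `(x, g) ↦ f (γ⁻¹ x, γ⁻¹ g)` of a function. -/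
def translate {V : Coef L} (γ : GF A) (f : Fn V) : Fn V := fun y => f (Pt.act γ⁻¹ y)

theorem Pt.act_mul (γ : GF A) (y : Pt A) (h : AG A) : Pt.act γ (y.mul h) = (Pt.act γ y).mul h :=
  Prod.ext rfl (mul_assoc _ _ _).symm

theorem sgn_one : sgn (1 : GF A) = 1 := (CGU.dsgn A.old).map_one'

theorem sgn_mul (γ δ : GF A) : sgn (γ * δ) = sgn γ * sgn δ := (CGU.dsgn A.old).map_mul' γ δ

theorem diag_one : diag (1 : GF A) = 1 := (CGQ.diag (𝒟 := CGU.sysU A.old)).map_one

theorem diag_mul (γ δ : GF A) : diag (γ * δ) = diag γ * diag δ :=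
  (CGQ.diag (𝒟 := CGU.sysU A.old)).map_mul γ δ

theorem Pt.act_one (y : Pt A) : Pt.act 1 y = y :=
  Prod.ext ((congrArg (· * y.1) sgn_one).trans (one_mul _))
    ((congrArg (· * y.2) diag_one).trans (one_mul _))

theorem Pt.act_act (γ δ : GF A) (y : Pt A) : Pt.act γ (Pt.act δ y) = Pt.act (γ * δ) y :=
  Prod.ext ((mul_assoc _ _ _).symm.trans (congrArg (· * y.1) (sgn_mul γ δ).symm))
    ((mul_assoc _ _ _).symm.trans (congrArg (· * y.2) (diag_mul γ δ).symm))

theorem translate_isForm {V : Coef L} (γ : GF A) (f : Forms V) : IsForm (translate γ f.fn) := by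
  intro y k
  exact (congrArg f.fn (Pt.act_mul γ⁻¹ y k.val)).trans (f.2 _ k)

/-- The translate of an element of `Forms`. -/
def actFun {V : Coef L} (γ : GF A) (f : Forms V) : Forms V :=
  Forms.mk (translate γ f.fn) (translate_isForm γ f)

/-- The map `a` is `O`-linear. -/
def IsLin {V : Coef L} (a : Forms V → Forms V) : Prop := IsLinearMap V.O a

theorem actFun_isLin {V : Coef L} (γ : GF A) : IsLin (actFun (V := V) γ) :=
  ⟨fun _ _ => rfl, fun _ _ => rfl⟩

/-- The endomorphisms of the `O`-module `Forms`. -/
def FEnd (V : Coef L) : Type := Module.End V.O (Forms V)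

instance (V : Coef L) : Monoid (FEnd V) := (inferInstance : Monoid (Module.End V.O (Forms V)))

/-- The endomorphism given by a linear map. -/
def FEnd.mk {V : Coef L} (a : Forms V → Forms V) (h : IsLin a) : FEnd V := IsLinearMap.mk' a h

/-- The translation by `γ` as a linear map. -/
def actLin (V : Coef L) (γ : GF A) : FEnd V := FEnd.mk (actFun γ) (actFun_isLin γ)

theorem actLin_one (V : Coef L) : actLin V 1 = 1 := by
  refine LinearMap.ext fun f => Subtype.ext (funext fun y => ?_)
  exact congrArg f.fn ((congrArg (fun γ => Pt.act γ y) inv_one).trans (Pt.act_one y))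

theorem actLin_mul (V : Coef L) (a b : GF A) : actLin V (a * b) = actLin V a * actLin V b := by
  refine LinearMap.ext fun f => Subtype.ext (funext fun y => ?_)
  exact congrArg f.fn ((congrArg (fun γ => Pt.act γ y) (mul_inv_rev a b)).trans
    (Pt.act_act b⁻¹ a⁻¹ y).symm)

/-- The action of `G(F)` on `Forms`: `(γ f)(x, g) = f (γ⁻¹ x, γ⁻¹ g)`. -/
def formsHom (V : Coef L) : GF A →* FEnd V where
  toFun := actLin V
  map_one' := actLin_one V
  map_mul' := actLin_mul V

/-- The action of `G(F)` on `Forms` as a representation. -/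
def formsRep (V : Coef L) : Representation V.O (GF A) (Forms V) := formsHom V

/-- The `G(F)`-module whose cohomology is the cohomology of `Y(K_f)` with coefficients in the
local system attached to `W`. -/
def coeff (V : Coef L) : Rep V.O (GF A) := Rep.of (formsRep V)

/-- The cohomology group `Hⁱ(Y(K_f), W)` : the group cohomology of the `G(F)`-module
`coeff V`. -/
def H (V : Coef L) (i : ℕ) : Type := groupCohomology (coeff V) i

instance (V : Coef L) (i : ℕ) : AddCommGroup (H V i) :=
  (inferInstance : AddCommGroup (groupCohomology (coeff V) i))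

instance (V : Coef L) (i : ℕ) : Module V.O (H V i) :=
  (inferInstance : Module V.O (groupCohomology (coeff V) i))

end Pool.Agent.CGUF
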