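import Pool.Agent.CGUF.Forms
import Pool.Agent.CGN.Hecke

/-!
# The Hecke algebra, its action on cohomology, and attached Galois representations
-/

noncomputable section

namespace Pool.Agent.CGUF

open CategoryTheory NumberField IsDedekindDomain

variable {A : UData} {L : Level A}

/-- The diagonal matrix over `F_v` with `k` entries `π` followed by entries `1`; `π` is a
uniformiser of `F_v`. -/
def dgm (v : Pl A) (k : ℕ) : Matrix (Fin A.n) (Fin A.n) (Fv v) :=
  Matrix.diagonal fun i => if (i : ℕ) < k then unif v else 1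

theorem dgm_det (v : Pl A) (k : ℕ) : (dgm v k).det ≠ 0 := by
  rw [dgm, Matrix.det_diagonal, Finset.prod_ne_zero_iff]
  intro i _
  split_ifs
  · exact unif_ne v
  · exact one_ne_zero

/-- The same matrix as an element of `GL_n(F_v)`. -/
def dgk (v : Pl A) (k : ℕ) : LG v :=
  Matrix.GeneralLinearGroup.mkOfDetNeZero (K := Fv v) (dgm v k) (dgm_det v k)

/-- The elements `diag(π, …, π, 1, …, 1)` with `j + 1` entries `π`, for `some j`, and
`diag(π, …, π)⁻¹` for `none`. -/
def alpha (v : Pl A) (j : Option (Fin A.n)) : LG v :=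
  Option.elim j (dgk v A.n)⁻¹ fun i => dgk v (i + 1)

/-- The cosets `h GL_n(O_v)`. -/
def Cos (v : Pl A) : Type := LG v ⧸ GZ v

/-- The coset `h GL_n(O_v)`. -/
def Cos.mk {v : Pl A} (h : LG v) : Cos v := (h : LG v ⧸ GZ v)

/-- An element of a coset. -/
def Cos.out {v : Pl A} (c : Cos v) : LG v := Quotient.out (show LG v ⧸ GZ v from c)

/-- The coset `c` is contained in the double coset `GL_n(O_v) α GL_n(O_v)`, `α = alpha v j`. -/
def Cos.In {v : Pl A} (j : Option (Fin A.n)) (c : Cos v) : Prop :=
  ∃ k ∈ GZ v, c = Cos.mk (k * alpha v j)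

theorem cosets_finite (v : Pl A) (j : Option (Fin A.n)) : {c : Cos v | c.In j}.Finite :=
  CGN.cosets_finite (F := A.F) (n := A.n) v j

/-- The set of the cosets `h GL_n(O_v)` contained in the double coset
`GL_n(O_v) α GL_n(O_v)`, `α = alpha v j`. -/
def cosets (v : Pl A) (j : Option (Fin A.n)) : Finset (Cos v) := (cosets_finite v j).toFinset

/-- The index set of the generators of the Hecke algebra: a finite place `v` which splits in `K`
and does not lie above `S`, and `some j`, `0 ≤ j < n`, or `none`. -/
def Idx (L : Level A) : Type := {v : Pl A // ¬ Bad L.S v} × Option (Fin A.n)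

/-- The place of an index. -/
def Idx.pl (t : Idx L) : Pl A := t.1.1

/-- The number `j` of an index. -/
def Idx.j (t : Idx L) : Option (Fin A.n) := t.2

/-- The isomorphism of the level at the place of an index. -/
def Idx.φ (t : Idx L) : Iso t.pl := L.φ t.1.1 t.1.2

/-- The index with place `v` and number `j`. -/
def Idx.mk (v : Pl A) (hv : ¬ Bad L.S v) (j : Option (Fin A.n)) : Idx L := (⟨v, hv⟩, j)

/-- The element of `G(𝔸_f)` with component `h` at `v` and `1` elsewhere, where `v` is the
place of the index `t`, `G(F_v)` is identified with `GL_n(F_v)` by the isomorphism of the level, and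
`h` is an element of the coset `c`. -/
def Idx.elt (t : Idx L) (c : Cos t.pl) : AG A := single t.pl (t.φ.symm c.out)

/-- The sum over the cosets in the definition of the Hecke operators. -/
def heckeSum {V : Coef L} (t : Idx L) (f : Fn V) : Fn V :=
  fun y => ∑ c ∈ cosets t.pl t.j, f (y.mul (t.elt c))

/-- The action of `K_p` on `W` in the notation of `Pool.Agent.CGU`. -/
def Coef.σo (V : Coef L) : Representation V.O L.old.Kp V.W := V.σ

/-- The action of `K_f` on `W` in the notation of `Pool.Agent.CGU`. -/
def Coef.τ (V : Coef L) : Representation V.O L.old.Kf V.W := L.old.rep V.σo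

theorem Coef.unram (V : Coef L) :
    CGN.UnramOff (O := V.O) (W := V.W) L.old.Kf V.τ (CGU.chartU L.old.φ) := L.old.unram V.σo

/-- The module of forms in the notation of `Pool.Agent.CGU`. -/
def OldForms (V : Coef L) : Submodule V.O ((CGU.sysU A.old).Pt → V.W) :=
  CGQ.Forms (O := V.O) (W := V.W) L.old.Kf V.τ

theorem isForm_old {V : Coef L} (f : Fn V) : IsForm f ↔ f ∈ OldForms V := Iff.rfl

theorem elt_old (t : Idx L) (c : Cos t.pl) : t.elt c =
    (CGN.sg (CGU.chartU L.old.φ) t.1 (Quotient.out (show LG t.pl ⧸ GZ t.pl from c)) :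
      (CGU.sysU A.old).A) := rfl

theorem cosets_old (v : Pl A) (j : Option (Fin A.n)) :
    cosets v j = (CGN.cosets_finite (F := A.F) (n := A.n) v j).toFinset := rfl

theorem heckeSum_old {V : Coef L} (t : Idx L) (f : Fn V) :
    heckeSum t f = CGN.heckeSum (W := V.W) (CGU.chartU L.old.φ) t.1 t.2 f :=
  funext fun y => Finset.sum_congr (cosets_old t.pl t.j) fun c _ =>
    congrArg (fun h : AG A => f (y.mul h)) (elt_old t c)

/-- The same form in the notation of `Pool.Agent.CGU`. -/
def oldForm {V : Coef L} (f : Forms V) : OldForms V := ⟨f.fn, (isForm_old f.fn).1 f.2⟩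

theorem heckeSum_isForm {V : Coef L} (t : Idx L) (f : Forms V) : IsForm (heckeSum t f.fn) :=
  (isForm_old _).2 ((heckeSum_old t f.fn).symm ▸
    CGN.heckeSum_mem (O := V.O) (W := V.W) (oldForm f) (V.unram t.1) t.2)

/-- The Hecke operator attached to `t` on `Forms`. -/
def heckeFun {V : Coef L} (t : Idx L) (f : Forms V) : Forms V :=
  Forms.mk (heckeSum t f.fn) (heckeSum_isForm t f)

theorem heckeFun_isLin {V : Coef L} (t : Idx L) : IsLin (heckeFun (V := V) t) :=
  ⟨fun _ _ => Subtype.ext (funext fun _ => Finset.sum_add_distrib),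
    fun c f => Subtype.ext (funext fun y => (Finset.smul_sum (r := c) (s := cosets t.pl t.j)
      (f := fun d => f.fn (y.mul (t.elt d)))).symm)⟩

/-- The Hecke operator attached to `t` as an endomorphism of the `O`-module `Forms`. -/
def heckeLin (V : Coef L) (t : Idx L) : FEnd V := FEnd.mk (heckeFun t) (heckeFun_isLin t)

theorem heckeLin_equivariant (V : Coef L) (t : Idx L) (γ : GF A) :
    heckeLin V t * actLin V γ = actLin V γ * heckeLin V t := by
  refine LinearMap.ext fun f => Subtype.ext (funext fun y => ?_)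
  exact Finset.sum_congr rfl fun c _ => congrArg f.fn (Pt.act_mul γ⁻¹ y (t.elt c))

/-- The Hecke operator attached to `t` as an endomorphism of the representation `coeff V`. -/
def heckeHom (V : Coef L) (t : Idx L) : coeff V ⟶ coeff V :=
  Rep.ofHom
    { toLinearMap := heckeLin V t
      isIntertwining' := heckeLin_equivariant V t }

/-- The Hecke operator attached to `t` on the cohomology group `Hⁱ(Y(K_f), W)`. -/
def heckeCoh {V : Coef L} {i : ℕ} (t : Idx L) (h : H V i) : H V i :=
  (groupCohomology.functor V.O (GF A) i).map (heckeHom V t) h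

/-- The Hecke algebra: the polynomial algebra over `O` on the Hecke operators `T_(v,1)`, …,
`T_(v,n)`, `T_(v,n)⁻¹`, `v` split in `K` and not above `S`. -/
def HeckeAlg (V : Coef L) : Type := MvPolynomial (Idx L) V.O

instance (V : Coef L) : CommRing (HeckeAlg V) :=
  (inferInstance : CommRing (MvPolynomial (Idx L) V.O))

/-- The generator of the Hecke algebra attached to `t`. -/
def HeckeAlg.T (V : Coef L) (t : Idx L) : HeckeAlg V := MvPolynomial.X (R := V.O) t

/-- The constants. -/
def HeckeAlg.C (V : Coef L) (a : V.O) : HeckeAlg V := MvPolynomial.C (σ := Idx L) a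

/-- `Φ` is the action of the Hecke algebra on `Hⁱ(Y(K_f), W)`. There is a unique such action:
`exists_unique_action`. -/
structure IsAction {V : Coef L} {i : ℕ} (Φ : HeckeAlg V → H V i → H V i) : Prop where
  const : ∀ (a : V.O) (h : H V i), Φ (HeckeAlg.C V a) h = a • h
  gen : ∀ (t : Idx L) (h : H V i), Φ (HeckeAlg.T V t) h = heckeCoh t h
  add : ∀ (p q : HeckeAlg V) (h : H V i), Φ (p + q) h = Φ p h + Φ q h
  mul : ∀ (p q : HeckeAlg V) (h : H V i), Φ (p * q) h = Φ p (Φ q h)

/-- The homomorphisms from the Hecke algebra to the field `k`. -/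
def Eig (V : Coef L) (k : Type) [Field k] : Type := HeckeAlg V →+* k

variable {V : Coef L} {k : Type} [Field k]

/-- The value of such a homomorphism. -/
def Eig.app (f : Eig V k) (t : HeckeAlg V) : k := (show HeckeAlg V →+* k from f) t

/-- The value at a generator. -/
def Eig.val (f : Eig V k) (t : Idx L) : k := f.app (HeckeAlg.T V t)

/-- The kernel of `f` is a maximal ideal: the image of `f` is a field. -/
def Eig.IsMax (f : Eig V k) : Prop := ∀ t, f.app t ≠ 0 → ∃ s, f.app (s * t) = 1

/-- The localisation of `Hⁱ(Y(K_f), W)` at the kernel `m` of `f` is not zero. -/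
def InSupport (i : ℕ) (f : Eig V k) : Prop :=
  ∃ Φ : HeckeAlg V → H V i → H V i, IsAction Φ ∧ ∃ h : H V i, ∀ t, f.app t ≠ 0 → Φ t h ≠ 0

/-- The embeddings of `K` in `Fbar`. -/
def KEmb (A : UData) : Type := A.K →ₐ[A.F] Fbar A.F

/-- The value of such an embedding. -/
def KEmb.app (j : KEmb A) (a : A.K) : Fbar A.F := (show A.K →ₐ[A.F] Fbar A.F from j) a

/-- The automorphism `σ` fixes `j(K)`. -/
def KEmb.Fix (j : KEmb A) (σ : GalF A.F) : Prop := ∀ a : A.K, σ.app (j.app a) = j.app a

/-- The prime ideal `Q` of the ring of algebraic integers, over the place `v`, is on the side of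
`φ_v`: for integers `a` of `K`, `j(a)` is in `Q` if and only if the matrix `φ_v(κ(a))` (a scalar
matrix, which is the image of `a` under one of the two embeddings of `K` in `F_v`) has its entries in
the maximal ideal of `O_v`. -/
def Side (κ : Emb A) (j : KEmb A) {v : Pl A} (φ : Iso v) (Q : Ideal (Zbar A.F)) : Prop :=
  ∀ (a : 𝓞 A.K) (x : Zbar A.F), x.val = j.app (a : A.K) →
    (x ∈ Q ↔ ∀ r s : Fin A.n, InMax (φ.θ.app (toV v (κ.app (a : A.K))) r s))

/-- The homomorphism `ρ` from the absolute Galois group of `F` to the dual group is attached to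
the kernel `m` of the homomorphism `f` from the Hecke algebra to `k`, with respect to the embedding
`j` of `K` in `Fbar`: it is continuous, compatible with the projections to `Gal(K/F)`, unramified at
the places which split in `K` and are not above `S`, and for the Frobenius elements `σ` at the prime
ideals `Q` over such places `v`, the characteristic polynomial of `ρ(σ^e)` (`e = 1`: arithmetic,
`e = -1`: geometric Frobenius elements) is given by the Hecke eigenvalues through the Satake
isomorphism: `∑ (-1)^i (N v)^(i(i-1)/2) T_(v,i) X^(n-i)` if `Q` is on the side of `φ_v`, and the same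
with the dual Hecke operators if not, up to a twist by a continuous character `ω` of the Galois
group of `K`. -/
def Attached (κ : Emb A) (f : Eig V k) (ρ : DRep A.F A.n k) (j : KEmb A) : Prop :=
  IsOpen {σ : GalF A.F | ρ.Ker σ} ∧ (∀ σ : GalF A.F, ρ.sign σ = 1 ↔ j.Fix σ) ∧
  ∃ (e : ℤˣ) (ω : GalF A.F → kˣ), (∀ σ τ, j.Fix σ → j.Fix τ → ω (σ * τ) = ω σ * ω τ) ∧
    IsOpen {σ : GalF A.F | j.Fix σ ∧ ω σ = 1} ∧
    ∀ (v : Pl A) (hv : ¬ Bad L.S v) (Q : Ideal (Zbar A.F)), Over v Q →
      (∀ σ : GalF A.F, IsInertia Q σ → ρ.Ker σ) ∧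
      ∀ σ : GalF A.F, j.Fix σ → IsFrob v Q σ →
        (Side κ j (L.φ v hv) Q →
          HasPol ρ (σ ^ (e : ℤ)) (fun i => f.val (Idx.mk v hv (some i))) (ω σ).val v) ∧
        (¬ Side κ j (L.φ v hv) Q →
          HasPol ρ (σ ^ (e : ℤ)) (dual fun i => f.val (Idx.mk v hv i)) (ω σ).val v)

/-- The number of the real places of `F` which split in `K`. -/
def t (A : UData) : ℤ := Nat.card {w : InfinitePlace A.F // ∃ h : w.IsReal,
  Ext (InfinitePlace.embedding_of_isReal h)}

/-- The number of the real places of `F` which split in `K` and at which `G(ℝ) = GL_n(ℝ)`. -/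
def sp (A : UData) : ℤ := Nat.card (SPl A)

/-- The number of complex places of `F`. -/
def r2 (A : UData) : ℤ := InfinitePlace.nrComplexPlaces A.F

/-- The degree `n` as an integer. -/
def deg (A : UData) : ℤ := A.n

/-- The real rank of the derived group of
`G(F ⊗ ℝ) = GL_n(ℝ)^a × GL_(n/2)(ℍ)^b × GL_n(ℂ)^c × U(n)^d` (where `a = sp A`, `a + b = t A`,
`c = r2 A` and `U(n)` is compact): `a (n - 1) + b (n/2 - 1) + c (n - 1)`. -/
def rk (A : UData) : ℤ := (deg A - 1) * (sp A + r2 A) + (deg A / 2 - 1) * (t A - sp A)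

/-- The real dimension of `G(F ⊗ ℝ)` minus that of its maximal compact subgroup
`SO(n)^a × Sp(n/2)^b × U(n)^c × U(n)^d`: the dimension of `Y(K_f)`. -/
def dY (A : UData) : ℤ :=
  sp A * (deg A * (deg A + 1) / 2) + (t A - sp A) * (deg A * (deg A - 1) / 2) + r2 A * deg A ^ 2

/-- The difference of the ranks of these two groups. -/
def ell0 (A : UData) : ℤ :=
  sp A * (deg A - deg A / 2) + (t A - sp A) * (deg A / 2) + r2 A * deg A

/-- `q₀ = (d_Y - ℓ₀) / 2`. -/
def q0 (A : UData) : ℤ := (dY A - ell0 A) / 2

end Pool.Agent.CGUF
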