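import Pool.Agent.CGUF.Transfer

/-!
# Comparison of the two versions of the definitions for unitary groups: representations and numbers
-/

noncomputable section

namespace Pool.Agent.CGUF

open CategoryTheory NumberField Matrix

section Rep

variable {F : Type} [Field F] {n : ℕ} {k : Type} [Field k]

theorem twist_eq (s : ℤˣ) (b : GL (Fin n) k) :
    twist s b = ((CGU.dualAct n k s b : GL (Fin n) k) : Matrix (Fin n) (Fin n) k) := by
  rcases Int.units_eq_one_or s with rfl | rfl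
  · rw [twist, if_pos rfl, map_one]
    rfl
  · rw [twist, if_neg (by decide), CGU.dualAct_neg, CGU.dualAut_apply]
    rfl

/-- The homomorphism in the notation of `Pool.Agent.CGU`. -/
def DRep.old (ρ : DRep F n k) : GalF F →* CGU.LG n k :=
  MonoidHom.mk' (fun σ => ⟨ρ.mat σ, ρ.sign σ⟩) fun σ τ => by
    refine SemidirectProduct.ext ?_ (ρ.sign_mul σ τ)
    apply Units.ext
    exact (ρ.mat_mul σ τ).trans (congrArg _ (twist_eq _ _))

theorem ker_iff (ρ : DRep F n k) (σ : GalF F) : ρ.Ker σ ↔ ρ.old σ = 1 := by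
  constructor
  · rintro ⟨h1, h2⟩
    exact SemidirectProduct.ext (Units.ext h1) h2
  · intro h
    have h1 : (ρ.old σ).left = 1 := by rw [h]; rfl
    have h2 : (ρ.old σ).right = 1 := by rw [h]; rfl
    exact ⟨congrArg Units.val h1, h2⟩

theorem map_iff (M : GL (Fin n) k) {U U' : Submodule k (Fin n → k)}
    (h : U.map (Matrix.mulVecLin (M : Matrix (Fin n) (Fin n) k)) = U') (y : Fin n → k) :
    y ∈ U ↔ M.val.mulVec y ∈ U' := by
  rw [← h, Submodule.mem_map]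
  constructor
  · intro hy
    exact ⟨y, hy, rfl⟩
  · rintro ⟨x, hx, hxy⟩
    have h2 : M.inv.mulVec (M.val.mulVec x) = M.inv.mulVec (M.val.mulVec y) :=
      congrArg M.inv.mulVec hxy
    rw [Matrix.mulVec_mulVec, Matrix.mulVec_mulVec, Units.inv_val, Matrix.one_mulVec,
      Matrix.one_mulVec] at h2
    rw [← h2]
    exact hx

theorem stab_of {U U' : Submodule k (Fin n → k)} {x : CGU.LG n k} (h : CGU.InStab U U' x) :
    Stab (n := n) (k := k) U U' x.left.val x.right := by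
  unfold Stab
  unfold CGU.InStab at h
  by_cases hx : x.right = 1
  · rw [if_pos hx] at h ⊢
    exact fun y => ⟨map_iff x.left h.1 y, map_iff x.left h.2 y⟩
  · rw [if_neg hx] at h ⊢
    exact fun y => ⟨map_iff (x.left * CGU.JG n k) h.1 y, map_iff (x.left * CGU.JG n k) h.2 y⟩

theorem nonEis_old (ρ : DRep F n k) (h : NonEisenstein ρ) : CGU.NonEisU ρ.old := by
  intro k' _ _ hfin
  rintro ⟨U, U', h1, h2, h3⟩
  refine h k' (algebraMap k k') (RingHom.finite_algebraMap.2 hfin) ⟨U, U', h1, h2, fun σ => ?_⟩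
  exact stab_of (h3 σ)

theorem pol_old (lam : Option (Fin n) → k) (w N : k) :
    pol (fun j => lam (some j)) w N = CGN.heckePol lam w N := by
  rw [pol, CGN.heckePol, Finset.sum_range_succ', add_comm]
  congr 1
  · rw [← Fin.sum_univ_eq_sum_range (fun j => Polynomial.C ((-1) ^ (j + 1) * w ^ (j + 1) *
      N ^ ((j + 1) * (j + 1 - 1) / 2) * CGN.lk lam (j + 1)) * Polynomial.X ^ (n - (j + 1))) n]
    refine Finset.sum_congr rfl fun j _ => ?_
    rw [CGN.lk_succ, neg_pow w, Nat.add_sub_cancel, mul_comm (j : ℕ) ((j : ℕ) + 1)]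
  · simp [CGN.lk_zero]

theorem dual_old (lam : Option (Fin n) → k) :
    dual lam = fun j => CGN.dualL lam (some j) := by
  funext j
  change (if h : (j : ℕ) + 1 < n then lam (some (Fin.rev ⟨j + 1, h⟩)) else 1) * lam none =
    CGN.lk lam (n - (j + 1)) * lam none
  congr 1
  by_cases h : (j : ℕ) + 1 < n
  · rw [dif_pos h]
    refine (CGN.lk_eq lam (Fin.rev ⟨j + 1, h⟩) ?_).symm
    rw [Fin.val_rev]
    change n - ((j : ℕ) + 1 + 1) + 1 = n - (j + 1)
    omega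
  · rw [dif_neg h, CGN.lk, dif_neg (by omega)]

end Rep

variable {A : UData} {L : Level A} {V : Coef L} {k : Type} [Field k]

/-- The homomorphism `f` in the notation of `Pool.Agent.CGU`. -/
def Eig.old (f : Eig V k) : CGN.HeckeAlg A.n (CGU.abU (F := A.F) A.K L.S) V.O →+* k := f

theorem ker_max (f : Eig V k) (hf : f.IsMax) : (RingHom.ker f.old).IsMaximal := by
  refine Ideal.isMaximal_iff.2 ⟨fun h => ?_, fun J x hJ hx hxJ => ?_⟩
  · rw [RingHom.mem_ker, map_one] at h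
    exact one_ne_zero h
  · obtain ⟨s, hs⟩ : ∃ s : CGN.HeckeAlg A.n (CGU.abU (F := A.F) A.K L.S) V.O,
        f.old (s * x) = 1 := hf x fun h => hx (RingHom.mem_ker.2 h)
    have h1 : s * x - 1 ∈ RingHom.ker f.old := by
      rw [RingHom.mem_ker, map_sub, map_one, sub_eq_zero]
      exact hs
    have h2 := J.sub_mem (J.mul_mem_left s hxJ) (hJ h1)
    rw [sub_sub_cancel] at h2
    exact h2

/-- The algebra structure given by `f`. -/
@[reducible] def algOld (f : Eig V k) :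
    Algebra (CGN.HeckeAlg A.n (CGU.abU (F := A.F) A.K L.S) V.O ⧸ RingHom.ker f.old) k :=
  (Ideal.Quotient.lift _ f.old fun _ h => h).toAlgebra

theorem side_iff (κ : Emb A) (j : KEmb A) (v : {v : CG2.Pl A.F // v ∉ CGU.abU (F := A.F) A.K L.S})
    (Q : Ideal (Zbar A.F)) : Side κ j (L.φ v.1 v.2) Q ↔
      CGU.Side (F := A.F) (K := A.K) (A := A.old) κ j L.old.φ v Q := by
  constructor
  · intro h a
    exact h a (CGN.incj (F := A.F) j a) rfl
  · intro h a x hx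
    have h1 : x = CGN.incj (F := A.F) j a := Subtype.ext hx
    rw [h1]
    exact h a

theorem attached_old (κ : Emb A) (f : Eig V k) (ρ : DRep A.F A.n k) (j : KEmb A)
    (h : Attached κ f ρ j) :
    @CGU.AttachedU A.F _ _ A.K _ _ _ A.old (CGU.abU (F := A.F) A.K L.S) κ j L.old.φ V.O _
      (RingHom.ker f.old) k _ (algOld f) ρ.old := by
  obtain ⟨h1, h0, e, ω, hω, h2, h3⟩ := h
  refine ⟨?_, h0, e, MonoidHom.mk' (fun σ => ω σ.1) fun a b => hω a.1 b.1 a.2 b.2, ?_, ?_⟩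
  · have h4 : ((MonoidHom.ker (G := GalF A.F) (M := CGU.LG A.n k) ρ.old :
        Subgroup (GalF A.F)) : Set (GalF A.F)) = {σ : GalF A.F | ρ.Ker σ} := by
      ext σ
      exact (ker_iff ρ σ).symm
    exact h4 ▸ h1
  · have h5 := h2.preimage (continuous_subtype_val (p := fun σ => σ ∈ CGU.fixK (F := A.F) j))
    refine (congrArg IsOpen (Set.ext fun σ => ?_)).mp h5
    exact ⟨fun h => h.2, fun h => ⟨σ.2, h⟩⟩
  · intro v Q hQ
    refine ⟨fun σ hσ => (ker_iff ρ σ).1 ((h3 v.1 v.2 Q hQ).1 σ hσ), fun σ hσ =>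
      ⟨fun hs => ?_, fun hs => ?_⟩⟩
    · rw [← pol_old]
      exact ((h3 v.1 v.2 Q hQ).2 σ.1 σ.2 hσ).1 ((side_iff κ j v Q).2 hs)
    · rw [← pol_old, ← dual_old]
      exact ((h3 v.1 v.2 Q hQ).2 σ.1 σ.2 hσ).2 fun h => hs ((side_iff κ j v Q).1 h)

/-- The numbers in the statement. -/
theorem numbers {n s t c : ℕ} (hn : 3 ≤ n) (hs : s ≤ t) :
    (((n - 1) * (s + c) + (n / 2 - 1) * (t - s) : ℕ) : ℤ) =
      ((n : ℤ) - 1) * (s + c) + ((n : ℤ) / 2 - 1) * (t - s) ∧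
    ((s * (n * (n + 1) / 2) + (t - s) * (n * (n - 1) / 2) + c * n ^ 2 : ℕ) : ℤ) =
      s * ((n : ℤ) * (n + 1) / 2) + (t - s) * ((n : ℤ) * (n - 1) / 2) + c * (n : ℤ) ^ 2 ∧
    ∃ q : ℤ, (s * ((n : ℤ) * (n + 1) / 2) + (t - s) * ((n : ℤ) * (n - 1) / 2) +
        c * (n : ℤ) ^ 2) - (s * ((n : ℤ) - n / 2) + (t - s) * ((n : ℤ) / 2) + c * n) = 2 * q := by
  obtain ⟨b, rfl⟩ := Nat.exists_eq_add_of_le hs
  have hsub : s + b - s = b := by omega
  rw [hsub]
  rcases Nat.even_or_odd' n with ⟨k, rfl | rfl⟩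
  · obtain ⟨j, rfl⟩ := Nat.exists_eq_add_of_le (show 1 ≤ k by omega)
    have e1 : ((2 * (1 + j) : ℕ) : ℤ) / 2 = 1 + j := by push_cast; omega
    have e2 : 2 * (1 + j) / 2 = 1 + j := by omega
    have e3 : 2 * (1 + j) * (2 * (1 + j) + 1) / 2 = (1 + j) * (2 * (1 + j) + 1) := by
      rw [mul_assoc]; exact Nat.mul_div_cancel_left _ (by norm_num)
    have e4 : 2 * (1 + j) * (2 * (1 + j) - 1) / 2 = (1 + j) * (2 * (1 + j) - 1) := by
      rw [mul_assoc]; exact Nat.mul_div_cancel_left _ (by norm_num)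
    have e5 : ((2 * (1 + j) : ℕ) : ℤ) * (((2 * (1 + j) : ℕ) : ℤ) + 1) / 2 =
        (1 + j) * (2 * (1 + j) + 1) := by
      push_cast
      rw [mul_assoc]
      exact Int.mul_ediv_cancel_left _ (by norm_num)
    have e6 : ((2 * (1 + j) : ℕ) : ℤ) * (((2 * (1 + j) : ℕ) : ℤ) - 1) / 2 =
        (1 + j) * (2 * (1 + j) - 1) := by
      push_cast
      rw [mul_assoc]
      exact Int.mul_ediv_cancel_left _ (by norm_num)
    rw [e1, e2, e3, e4, e5, e6]
    have e7 : 2 * (1 + j) - 1 = 2 * j + 1 := by omega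
    have e8 : 1 + j - 1 = j := by omega
    rw [e7, e8]
    push_cast
    refine ⟨by ring, by ring, ?_⟩
    refine ⟨s * (1 + j) * (1 + j) + b * (1 + j) ^ 2 - b * (1 + j) +
      c * (1 + j) * (2 * j + 1), ?_⟩
    ring
  · have e1 : ((2 * k + 1 : ℕ) : ℤ) / 2 = k := by push_cast; omega
    have e2 : (2 * k + 1) / 2 = k := by omega
    have e3 : (2 * k + 1) * (2 * k + 1 + 1) / 2 = (2 * k + 1) * (k + 1) := by
      have : (2 * k + 1) * (2 * k + 1 + 1) = 2 * ((2 * k + 1) * (k + 1)) := by ring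
      rw [this]; exact Nat.mul_div_cancel_left _ (by norm_num)
    have e4 : (2 * k + 1) * (2 * k + 1 - 1) / 2 = (2 * k + 1) * k := by
      have : (2 * k + 1) * (2 * k + 1 - 1) = 2 * ((2 * k + 1) * k) := by
        rw [Nat.add_sub_cancel]; ring
      rw [this]; exact Nat.mul_div_cancel_left _ (by norm_num)
    have e5 : ((2 * k + 1 : ℕ) : ℤ) * (((2 * k + 1 : ℕ) : ℤ) + 1) / 2 = (2 * k + 1) * (k + 1) := by
      have : ((2 * k + 1 : ℕ) : ℤ) * (((2 * k + 1 : ℕ) : ℤ) + 1) =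
          2 * ((2 * k + 1) * (k + 1)) := by push_cast; ring
      rw [this]; exact Int.mul_ediv_cancel_left _ (by norm_num)
    have e6 : ((2 * k + 1 : ℕ) : ℤ) * (((2 * k + 1 : ℕ) : ℤ) - 1) / 2 = (2 * k + 1) * k := by
      have : ((2 * k + 1 : ℕ) : ℤ) * (((2 * k + 1 : ℕ) : ℤ) - 1) = 2 * ((2 * k + 1) * k) := by
        push_cast; ring
      rw [this]; exact Int.mul_ediv_cancel_left _ (by norm_num)
    obtain ⟨j, rfl⟩ := Nat.exists_eq_add_of_le (show 1 ≤ k by omega)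
    rw [e1, e2, e3, e4, e5, e6]
    have e7 : 2 * (1 + j) + 1 - 1 = 2 * (1 + j) := by omega
    have e8 : 1 + j - 1 = j := by omega
    rw [e7, e8]
    push_cast
    refine ⟨by ring, by ring, ?_⟩
    refine ⟨s * (1 + j) * (2 + j) + b * (1 + j) ^ 2 + c * (2 * (1 + j) + 1) * (1 + j), ?_⟩
    ring

theorem t_old (A : UData) : t A = (CGU.rsp A.F A.K : ℤ) := rfl

theorem sp_old (A : UData) : sp A = (A.old.sp : ℤ) := rfl

theorem main_two (A : UData) (hn : 3 ≤ A.n) (hs : A.old.sp ≤ CGU.rsp A.F A.K)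
    (h : 1 ≤ rk A) (i : ℕ) (hi : 1 ≤ A.old.rk A.K → min 2 (A.old.rk A.K) ≤ i ∧
      i + min 2 (A.old.rk A.K) ≤ A.old.dim A.K) :
    (1 ≤ i ∧ (i : ℤ) ≤ dY A - 1) ∧
    (2 ≤ rk A → 2 ≤ i ∧ (i : ℤ) ≤ dY A - 2) ∧
    (q0 A ≤ 2 → q0 A ≤ rk A → q0 A ≤ i ∧ (i : ℤ) ≤ q0 A + ell0 A) := by
  obtain ⟨h1, h2, c, h3⟩ := numbers (n := A.n) (s := A.old.sp)
    (t := CGU.rsp A.F A.K) (c := InfinitePlace.nrComplexPlaces A.F) hn hs
  have h4 : (A.old.rk A.K : ℤ) = rk A := h1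
  have h5 : (A.old.dim A.K : ℤ) = dY A := h2
  have h6 : dY A - ell0 A = 2 * c := h3
  have h7 := hi (by omega)
  unfold q0
  omega

end Pool.Agent.CGUF
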