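import Pool.Agent.CGU.Stmt
import Pool.Agent.CGUF.Trans2

/-!
# The vanishing theorem for unitary groups over number fields
-/

noncomputable section

namespace Pool.Agent.CGUF

open CategoryTheory NumberField

theorem main (A : UData) (κ : Emb A) (hU : IsUnitaryData κ) (hn : 3 ≤ A.n) (hr : 1 ≤ rk A)
    (L : Level A) (hTF : L.TorsionFree) (V : Coef L) (hV : V.IsCont) (k : Type) [Field k]
    (f : Eig V k) (hf : f.IsMax) (ρ : DRep A.F A.n k) (j : KEmb A) (hatt : Attached κ f ρ j)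
    (hne : NonEisenstein ρ) (i : ℕ) (hm : InSupport i f) :
    (1 ≤ i ∧ (i : ℤ) ≤ dY A - 1) ∧
    (2 ≤ rk A → 2 ≤ i ∧ (i : ℤ) ≤ dY A - 2) ∧
    (q0 A ≤ 2 → q0 A ≤ rk A → q0 A ≤ i ∧ (i : ℤ) ≤ q0 A + ell0 A) := by
  have hp : Fact (L.p : ℕ).Prime := ⟨L.p.2⟩
  have hchar : CharP (IsLocalRing.ResidueField V.O) (L.p : ℕ) := by
    have h1 : ((L.p : ℕ) : IsLocalRing.ResidueField V.O) = 0 := by
      rw [← map_natCast (IsLocalRing.residue V.O)]
      exact Ideal.Quotient.eq_zero_iff_mem.2 V.char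
    exact (CharP.charP_iff_prime_eq_zero L.p.2).2 h1
  have hU' := isUni_old κ hU
  refine main_two A hn (CGU.sp_le_rsp hU' (by change 1 ≤ A.n; omega)) hr i fun hr' => ?_
  have hmax := ker_max f hf
  exact @CGU.main_all A.F _ _ A.K _ _ _ A.old κ hU' hn hr' (L.p : ℕ) hp
    (CGU.abU (F := A.F) A.K L.S) (CGU.sfin_abU A.K L.S hU.deg)
    (fun v hv => Or.inl ⟨L.p, L.mem, hv⟩) L.old.φ L.old.Kf L.old.oc (torsionFree_old L hTF)
    L.old.hyp V.O _ _ _ hchar V.W _ _ _ (L.old.rep V.σ) (L.old.unram V.σ)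
    (L.old.cont V.σ (cont_old V hV)) (RingHom.ker f.old) hmax k _ (algOld f) j ρ.old
    (attached_old κ f ρ j hatt) (nonEis_old ρ hne) i (inSupport_old i f hm)

end Pool.Agent.CGUF
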