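import Pool.Agent.CGUF.Base

/-!
# Comparison of the structure constants
-/

noncomputable section

namespace Pool.Agent.CGUF

variable {n : ℕ} {R : Type} [CommRing R] {c : Ix n → Ix n → Ix n → R} {u : Ix n → R}
  {t : Ix n → Ix n → R}

/-- The elements of the basis. -/
def bas (i : Fin 2 × Fin n × Fin n) : Ix n → R := fun j =>
  if (show Fin 2 × Fin n × Fin n from j) = i then 1 else 0

theorem sum_bas (i : Fin 2 × Fin n × Fin n) (g : Ix n → R) :
    ∑ a : Ix n, (bas i : Ix n → R) a * g a = g i := by
  change ∑ a : Fin 2 × Fin n × Fin n, (if a = i then 1 else 0) * g a = _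
  rw [Finset.sum_eq_single i]
  · simp
  · intro b _ hb
    simp [hb]
  · simp

theorem prod_bas (i : Fin 2 × Fin n × Fin n) (y : Ix n → R) (k : Ix n) :
    prod c (bas i) y k = ∑ j, y j * c i j k := by
  rw [prod]
  have h : ∀ a : Ix n, ∑ j, (bas i : Ix n → R) a * y j * c a j k =
      (bas i : Ix n → R) a * ∑ j, y j * c a j k := by
    intro a
    rw [Finset.mul_sum]
    exact Finset.sum_congr rfl fun j _ => mul_assoc _ _ _
  rw [Finset.sum_congr rfl fun a _ => h a]
  exact sum_bas i fun a => ∑ j, y j * c a j k

theorem prod_bas' (j : Fin 2 × Fin n × Fin n) (x : Ix n → R) (k : Ix n) :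
    prod c x (bas j) k = ∑ i, x i * c i j k := by
  rw [prod]
  refine Finset.sum_congr rfl fun i _ => ?_
  have h : ∀ a : Ix n, x i * (bas j : Ix n → R) a * c i a k =
      (bas j : Ix n → R) a * (x i * c i a k) := fun a => by ring
  rw [Finset.sum_congr rfl fun a _ => h a]
  exact sum_bas j fun a => x i * c i a k

theorem prod_bas_bas (i j : Fin 2 × Fin n × Fin n) (k : Ix n) :
    prod c (bas i) (bas j) k = c i j k := by
  rw [prod_bas]
  exact sum_bas j fun a => c i a k

theorem lin_bas (i : Fin 2 × Fin n × Fin n) (k : Ix n) : lin t (bas i) k = t i k := by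
  rw [lin]
  exact sum_bas i fun a => t a k

theorem bas_apply (i k : Fin 2 × Fin n × Fin n) :
    (bas i : Ix n → R) k = if i = k then 1 else 0 := by
  change (if k = i then (1 : R) else 0) = _
  by_cases h : i = k
  · rw [if_pos h, if_pos h.symm]
  · rw [if_neg h, if_neg (fun h' => h h'.symm)]

/-- The same structure constants in the notation of `Pool.Agent.CGU`. -/
def oldSC (h : IsInvAlg c u t) : CGU.SCI (Fin 2 × Fin n × Fin n) R where
  c := c
  u := u
  assoc i j k l := by
    have h1 := congrFun (h.assoc (bas i) (bas j) (bas k)) l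
    rw [prod_bas', prod_bas] at h1
    simp only [prod_bas_bas] at h1
    exact h1
  one_mul j k := by
    have h1 := congrFun (h.one_mul (bas j)) k
    rw [prod_bas', bas_apply] at h1
    exact h1
  mul_one i k := by
    have h1 := congrFun (h.mul_one (bas i)) k
    rw [prod_bas, bas_apply] at h1
    exact h1
  t := t
  tt i k := by
    have h1 := congrFun (h.inv_inv (bas i)) k
    rw [bas_apply, lin] at h1
    simp only [lin_bas] at h1
    exact h1
  tm i j l := by
    have h1 := congrFun (h.inv_mul (bas i) (bas j)) l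
    rw [lin, prod] at h1
    simp only [lin_bas, prod_bas_bas] at h1
    exact h1

end Pool.Agent.CGUF
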