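import Pool.Agent.CGUF.Hecke
import Pool.Agent.CGU.Defs
import Pool.Agent.CGN.Stmt

/-!
# Comparison of the two versions of the definitions for unitary groups
-/

noncomputable section

namespace Pool.Agent.CGUF

open CategoryTheory NumberField

/-- The trace of the multiplication by `x` in an algebra given by structure constants. -/
theorem trace_sc {ι R : Type} [Fintype ι] [DecidableEq ι] [CommRing R] (s : CGN.SC ι R)
    (x : s.Alg) : LinearMap.trace R s.Alg (LinearMap.mulLeft R x) =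
      ∑ i, ∑ j, x.co i * s.c i j j := by
  rw [LinearMap.trace_eq_matrix_trace R (Module.Basis.ofEquivFun s.lin), Matrix.trace]
  have h : ∀ j, (LinearMap.toMatrix (Module.Basis.ofEquivFun s.lin)
      (Module.Basis.ofEquivFun s.lin) (LinearMap.mulLeft R x)).diag j =
      ∑ i, x.co i * s.c i j j := by
    intro j
    rw [Matrix.diag_apply, LinearMap.toMatrix_apply, Module.Basis.ofEquivFun_repr_apply,
      LinearMap.mulLeft_apply, CGN.SC.lin_apply, CGN.SC.Alg.co_mul]
    refine Finset.sum_congr rfl fun i _ => ?_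
    rw [Finset.sum_eq_single j]
    · have h1 : ((Module.Basis.ofEquivFun s.lin) j : s.Alg).co j = 1 := by
        rw [Module.Basis.coe_ofEquivFun]
        exact Pi.single_eq_same _ _
      rw [h1, mul_one]
    · intro b _ hb
      have h1 : ((Module.Basis.ofEquivFun s.lin) j : s.Alg).co b = 0 := by
        rw [Module.Basis.coe_ofEquivFun]
        exact Pi.single_eq_of_ne hb _
      rw [h1, mul_zero, zero_mul]
    · simp
  rw [Finset.sum_congr rfl fun j _ => h j, Finset.sum_comm]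

variable {A : UData} {L : Level A}

theorem isUni_old (κ : Emb A) (h : IsUnitaryData κ) : CGU.IsUni A.old κ where
  deg := h.deg
  com := h.com
  cen := h.cen
  sim := h.simple
  kind := h.kind
  ani := h.ani
  pos w hw hn x hx := by
    rw [CGU.trR, trace_sc]
    exact h.pos _ hn x hx

/-- A common form of `IsAction`. -/
def GenAct {G O : Type} [Group G] [CommRing O] {A : Rep O G} {I : Type}
    (T : I → (A ⟶ A)) (i : ℕ)
    (Φ : MvPolynomial I O → groupCohomology A i → groupCohomology A i) : Prop :=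
  (∀ a h, Φ (MvPolynomial.C a) h = a • h) ∧
  (∀ t h, Φ (MvPolynomial.X t) h = (groupCohomology.functor O G i).map (T t) h) ∧
  (∀ p q h, Φ (p + q) h = Φ p h + Φ q h) ∧ (∀ p q h, Φ (p * q) h = Φ p (Φ q h))

/-- A common form of `InSupport`. -/
def GenSupp {G O k : Type} [Group G] [CommRing O] [Field k] (A : Rep O G) {I : Type}
    (T : I → (A ⟶ A)) (i : ℕ) (f : MvPolynomial I O →+* k) : Prop :=
  ∃ Φ : MvPolynomial I O → groupCohomology A i → groupCohomology A i, GenAct T i Φ ∧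
    ∃ h, ∀ t, f t ≠ 0 → Φ t h ≠ 0

theorem isAction_iff {V : Coef L} {i : ℕ} (Φ : HeckeAlg V → H V i → H V i) :
    IsAction Φ ↔ GenAct (heckeHom V) i Φ :=
  ⟨fun h => ⟨h.const, h.gen, h.add, h.mul⟩, fun h => ⟨h.1, h.2.1, h.2.2.1, h.2.2.2⟩⟩

/-- Comparison of two representations on the same space of functions. -/
theorem transport {G O X W I : Type} [Group G] [CommRing O] [AddCommGroup W] [Module O W]
    {N N' : Submodule O (X → W)} (h : ∀ a, a ∈ N ↔ a ∈ N') {ρ : Representation O G N}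
    {ρ' : Representation O G N'}
    (hρ : ∀ g (a : X → W) (ha : a ∈ N) (ha' : a ∈ N'), (ρ g ⟨a, ha⟩ : X → W) = ρ' g ⟨a, ha'⟩)
    {T : I → (Rep.of ρ ⟶ Rep.of ρ)} {T' : I → (Rep.of ρ' ⟶ Rep.of ρ')}
    (hT : ∀ t (a : X → W) (ha : a ∈ N) (ha' : a ∈ N'),
      ((T t).hom.toLinearMap ⟨a, ha⟩ : X → W) = (T' t).hom.toLinearMap ⟨a, ha'⟩)
    (P : ∀ B : Rep O G, (I → (B ⟶ B)) → Prop) (hP : P (Rep.of ρ') T') : P (Rep.of ρ) T := by
  obtain rfl : N = N' := Submodule.ext h
  obtain rfl : ρ = ρ' := by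
    ext g a : 2
    exact Subtype.ext (hρ g a.1 a.2 a.2)
  obtain rfl : T = T' := by
    funext t
    apply Rep.hom_ext
    apply Representation.IntertwiningMap.ext
    exact LinearMap.ext fun a => Subtype.ext (hT t a.1 a.2 a.2)
  exact hP

theorem genSupp_of {V : Coef L} {k : Type} [Field k] (i : ℕ) (f : Eig V k) (h : InSupport i f) :
    GenSupp (coeff V) (heckeHom V) i f := by
  obtain ⟨Φ, h1, x, hx⟩ := h
  exact ⟨Φ, (isAction_iff Φ).1 h1, x, hx⟩

theorem eq_hact {F : Type} [Field F] [NumberField F] {n : ℕ} {𝒟 : CGQ.Sys F}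
    {O : Type} [CommRing O] {W : Type} [AddCommGroup W] [Module O W]
    (K : Subgroup 𝒟.A) {T : Set (CG2.Pl F)} {Φ : CGN.Chart n 𝒟 T}
    (τ : Representation O K W) (hU : CGN.UnramOff K τ Φ) (i : ℕ)
    {Ψ : MvPolynomial (CGN.Idx (F := F) n T) O → groupCohomology (CGQ.coeff K τ) i →
      groupCohomology (CGQ.coeff K τ) i} (h : GenAct (CGN.heckeHom K τ hU) i Ψ)
    (p : CGN.HeckeAlg n T O) (x : groupCohomology (CGQ.coeff K τ) i) :
    Ψ p x = CGN.hact K τ hU i p x := by
  obtain ⟨h1, h2, h3, h4⟩ := h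
  revert x
  induction p using MvPolynomial.induction_on with
  | C a =>
    intro x
    rw [h1]
    exact (congrArg (fun g : Module.End O (groupCohomology (CGQ.coeff K τ) i) => g x)
      ((CGN.hact K τ hU i).commutes a)).symm
  | add p q hp hq =>
    intro x
    rw [h3, hp, hq, map_add]
    rfl
  | mul_X p t hp =>
    intro x
    rw [h4, hp, h2, map_mul, CGN.hact_X]
    rfl

theorem genAct_hact {F : Type} [Field F] [NumberField F] {n : ℕ} {𝒟 : CGQ.Sys F}
    {O : Type} [CommRing O] {W : Type} [AddCommGroup W] [Module O W]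
    (K : Subgroup 𝒟.A) {T : Set (CG2.Pl F)} {Φ : CGN.Chart n 𝒟 T}
    (τ : Representation O K W) (hU : CGN.UnramOff K τ Φ) (i : ℕ) :
    GenAct (CGN.heckeHom K τ hU) i fun p x => CGN.hact K τ hU i p x := by
  refine ⟨fun a x => ?_, fun t x => ?_, fun p q x => ?_, fun p q x => ?_⟩
  · exact congrArg (fun g : Module.End O (groupCohomology (CGQ.coeff K τ) i) => g x)
      ((CGN.hact K τ hU i).commutes a)
  · change CGN.hact K τ hU i (MvPolynomial.X t) x = _
    rw [CGN.hact_X]
    rfl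
  · change CGN.hact K τ hU i (p + q) x = _
    rw [map_add]
    rfl
  · change CGN.hact K τ hU i (p * q) x = _
    rw [map_mul]
    rfl

theorem of_genSupp {F : Type} [Field F] [NumberField F] {n : ℕ} {𝒟 : CGQ.Sys F}
    {O : Type} [CommRing O] {W : Type} [AddCommGroup W] [Module O W]
    (K : Subgroup 𝒟.A) {T : Set (CG2.Pl F)} {Φ : CGN.Chart n 𝒟 T}
    (τ : Representation O K W) (hU : CGN.UnramOff K τ Φ) (i : ℕ) {k : Type} [Field k]
    (f : CGN.HeckeAlg n T O →+* k) (h : GenSupp (CGQ.coeff K τ) (CGN.heckeHom K τ hU) i f) :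
    CGN.InSupport K τ hU i (RingHom.ker f) := by
  obtain ⟨Ψ, h1, x, hx⟩ := h
  refine ⟨x, fun t ht => ?_⟩
  rw [← eq_hact K τ hU i h1]
  exact hx t fun h0 => ht (RingHom.mem_ker.2 h0)

/-- The submodule `CGQ.Forms`, as a submodule of the same space of functions. -/
def formsOld (V : Coef L) : Submodule V.O (Pt A → V.W) :=
  CGQ.Forms (O := V.O) (W := V.W) L.old.Kf (L.old.rep V.σ)

/-- The representation `CGQ.formsRep`. -/
def repOld (V : Coef L) : Representation V.O (GF A) (formsOld V) :=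
  CGQ.formsRep (O := V.O) (W := V.W) L.old.Kf (L.old.rep V.σ)

/-- The Hecke operators `CGN.heckeHom`. -/
def heckeOld (V : Coef L) : Idx L → (Rep.of (repOld V) ⟶ Rep.of (repOld V)) :=
  CGN.heckeHom (O := V.O) (W := V.W) L.old.Kf (L.old.rep V.σ) (L.old.unram V.σ)

theorem mem_old {V : Coef L} (a : Pt A → V.W) : a ∈ FormsSub V ↔ a ∈ formsOld V := Iff.rfl

theorem rep_old {V : Coef L} (g : GF A) (a : Pt A → V.W) (ha : a ∈ FormsSub V)
    (ha' : a ∈ formsOld V) :
    Forms.fn (formsRep V g ⟨a, ha⟩) = (repOld V g ⟨a, ha'⟩).1 := (rfl)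

theorem hecke_old {V : Coef L} (t : Idx L) (a : Pt A → V.W) (ha : a ∈ FormsSub V)
    (ha' : a ∈ formsOld V) : Forms.fn ((heckeHom V t).hom.toLinearMap ⟨a, ha⟩) =
      ((heckeOld V t).hom.toLinearMap ⟨a, ha'⟩ : formsOld V).1 := (rfl)

/-- Comparison of the two versions of the cohomology groups and Hecke operators. -/
theorem of_old {V : Coef L} (P : ∀ B : Rep V.O (GF A), (Idx L → (B ⟶ B)) → Prop)
    (hP : P (Rep.of (repOld V)) (heckeOld V)) : P (coeff V) (heckeHom V) :=
  transport (N := FormsSub V) (N' := formsOld V) mem_old (ρ := formsRep V) (ρ' := repOld V)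
    rep_old (T := heckeHom V) (T' := heckeOld V) hecke_old P hP

theorem inSupport_old {V : Coef L} {k : Type} [Field k] (i : ℕ) (f : Eig V k)
    (h : InSupport i f) :
    CGN.InSupport (O := V.O) (W := V.W) L.old.Kf (L.old.rep V.σ) (L.old.unram V.σ) i
      (RingHom.ker (show CGN.HeckeAlg A.n (CGU.abU (F := A.F) A.K L.S) V.O →+* k from f)) :=
  of_old (fun B T => GenSupp B T i f → CGN.InSupport (O := V.O) (W := V.W) L.old.Kf
      (L.old.rep V.σ) (L.old.unram V.σ) i
      (RingHom.ker (show CGN.HeckeAlg A.n (CGU.abU (F := A.F) A.K L.S) V.O →+* k from f)))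
    (of_genSupp (O := V.O) (W := V.W) L.old.Kf (L.old.rep V.σ) (L.old.unram V.σ) i f)
    (genSupp_of i f h)

theorem exists_unique_old {F : Type} [Field F] [NumberField F] {n : ℕ} {𝒟 : CGQ.Sys F}
    {O : Type} [CommRing O] {W : Type} [AddCommGroup W] [Module O W]
    (K : Subgroup 𝒟.A) {T : Set (CG2.Pl F)} {Φ : CGN.Chart n 𝒟 T}
    (τ : Representation O K W) (hU : CGN.UnramOff K τ Φ) (i : ℕ) :
    ∃! Ψ : MvPolynomial (CGN.Idx (F := F) n T) O → groupCohomology (CGQ.coeff K τ) i →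
      groupCohomology (CGQ.coeff K τ) i, GenAct (CGN.heckeHom K τ hU) i Ψ :=
  ⟨fun p x => CGN.hact K τ hU i p x, genAct_hact K τ hU i, fun _ h =>
    funext fun p => funext fun x => eq_hact K τ hU i h p x⟩

/-- There is a unique action of the Hecke algebra on `Hⁱ(Y(K_f), W)`. -/
theorem exists_unique_action (V : Coef L) (i : ℕ) :
    ∃! Φ : HeckeAlg V → H V i → H V i, IsAction Φ := by
  obtain ⟨Φ, h1, h2⟩ := of_old (V := V) (fun B T => ∃! Ψ : MvPolynomial (Idx L) V.O →
      groupCohomology B i → groupCohomology B i, GenAct T i Ψ)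
    (exists_unique_old (O := V.O) (W := V.W) L.old.Kf (L.old.rep V.σ) (L.old.unram V.σ) i)
  exact ⟨Φ, (isAction_iff Φ).2 h1, fun Ψ hΨ => h2 Ψ ((isAction_iff Ψ).1 hΨ)⟩

theorem torsionFree_old (L : Level A) (h : L.TorsionFree) : CGQ.TorsionFree L.old.Kf := h

theorem cont_old (V : Coef L) (h : V.IsCont) :
    CGU.IsContinuousRepU (O := V.O) (W := V.W) L.old V.σ := by
  intro n
  obtain ⟨ϖ, hϖ⟩ := IsDiscreteValuationRing.exists_irreducible V.O
  obtain ⟨U, hU, h1, h2⟩ := h (ϖ ^ n) (pow_ne_zero _ hϖ.ne_zero)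
  refine ⟨U, hU, h1, fun k hk w => ?_⟩
  obtain ⟨w', hw'⟩ := h2 k hk w
  have h3 : (V.σ : Representation V.O L.Kp V.W) k w = w + ϖ ^ n • w' := hw'
  have h4 : (V.σ : Representation V.O L.Kp V.W) k w - w ∈
      (IsLocalRing.maximalIdeal V.O ^ n • ⊤ : Submodule V.O V.W) := by
    rw [h3, add_sub_cancel_left]
    refine Submodule.smul_mem_smul (Ideal.pow_mem_pow ?_ n) trivial
    exact (IsLocalRing.mem_maximalIdeal _).2 hϖ.not_isUnit
  exact h4

end Pool.Agent.CGUF
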